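import Pool.Agent.W585.Param

/-!
# A version of Stokes' theorem on the cube
-/

set_option autoImplicit false

open Set Filter Topology MeasureTheory
open scoped ContDiff

namespace Q170.CF

theorem param_deriv {f : ℝ → ℝ → ℝ} (hf : ContDiff ℝ ∞ (fun p : ℝ × ℝ => f p.1 p.2))
    (a b s : ℝ) :
    HasDerivAt (fun s => ∫ t in a..b, f s t) (∫ t in a..b, deriv (fun s => f s t) s) s := by
  have h1 := Pool.Agent.W585.hasFDerivAt_param (hf.of_le (by simp) : ContDiff ℝ 1 _) a b s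
  have h2 := h1.hasDerivAt
  have h3 : (∫ t in a..b, fderiv ℝ (fun y => f y t) s) 1 =
      ∫ t in a..b, deriv (fun s => f s t) s := by
    have hD : ContDiff ℝ ∞ (fun p : ℝ × ℝ => fderiv ℝ (fun y => f y p.1) s) := by
      have h4 : ContDiff ℝ ∞ (Function.uncurry (fun (p : ℝ × ℝ) (y : ℝ) => f y p.1)) :=
        hf.comp (contDiff_snd.prodMk (contDiff_fst.comp contDiff_fst))
      exact h4.fderiv contDiff_const (by simp)
    have hc : Continuous (fun t => fderiv ℝ (fun y => f y t) s) :=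
      hD.continuous.comp (Continuous.prodMk_left (0 : ℝ))
    rw [ContinuousLinearMap.intervalIntegral_apply (hc.intervalIntegrable _ _)]
    rfl
  rw [h3] at h2
  exact h2

theorem contDiff_slice1 {P : ℝ → ℝ → ℝ → ℝ}
    (hP : ContDiff ℝ ∞ (fun q : ℝ × ℝ × ℝ => P q.1 q.2.1 q.2.2)) (t : ℝ) :
    ContDiff ℝ ∞ (fun q : ℝ × ℝ => P q.1 t q.2) :=
  hP.comp (contDiff_fst.prodMk (contDiff_const.prodMk contDiff_snd))

theorem contDiff_deriv1 {P : ℝ → ℝ → ℝ → ℝ}
    (hP : ContDiff ℝ ∞ (fun q : ℝ × ℝ × ℝ => P q.1 q.2.1 q.2.2)) :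
    ContDiff ℝ ∞ (fun q : ℝ × ℝ × ℝ => deriv (fun x => P x q.2.1 q.2.2) q.1) := by
  have h4 : ContDiff ℝ ∞ (Function.uncurry (fun (q : ℝ × ℝ × ℝ) (x : ℝ) => P x q.2.1 q.2.2)) :=
    hP.comp (contDiff_snd.prodMk ((contDiff_fst.comp (contDiff_snd.comp contDiff_fst)).prodMk
      (contDiff_snd.comp (contDiff_snd.comp contDiff_fst))))
  have h5 : ContDiff ℝ ∞ (fun q : ℝ × ℝ × ℝ => fderiv ℝ (fun x => P x q.2.1 q.2.2) q.1) :=
    h4.fderiv contDiff_fst (by simp)
  exact h5.clm_apply contDiff_const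

/-- A version of Stokes' theorem on the cube. -/
theorem stokes (P Q R : ℝ → ℝ → ℝ → ℝ)
    (hP : ContDiff ℝ ∞ (fun q : ℝ × ℝ × ℝ => P q.1 q.2.1 q.2.2))
    (hQ : ContDiff ℝ ∞ (fun q : ℝ × ℝ × ℝ => Q q.1 q.2.1 q.2.2))
    (hR : ContDiff ℝ ∞ (fun q : ℝ × ℝ × ℝ => R q.1 q.2.1 q.2.2))
    (h : ∀ s ∈ Icc (0 : ℝ) 1, ∀ t ∈ Icc (0 : ℝ) 1, ∀ r ∈ Icc (0 : ℝ) 1,
      deriv (fun x => P x t r) s = deriv (fun x => Q s x r) t - deriv (fun x => R s t x) r)
    (hQ0 : ∀ s ∈ Icc (0 : ℝ) 1, ∀ r ∈ Icc (0 : ℝ) 1, Q s 0 r = 0 ∧ Q s 1 r = 0)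
    (hR0 : ∀ s ∈ Icc (0 : ℝ) 1, ∀ t ∈ Icc (0 : ℝ) 1, R s t 0 = 0 ∧ R s t 1 = 0) :
    ∫ t in (0 : ℝ)..1, ∫ r in (0 : ℝ)..1, P 1 t r =
      ∫ t in (0 : ℝ)..1, ∫ r in (0 : ℝ)..1, P 0 t r := by
  have hPin : ContDiff ℝ ∞ (fun q : ℝ × ℝ => ∫ r in (0 : ℝ)..1, P q.1 q.2 r) := by
    refine Pool.Agent.W585.contDiff_param (F := fun (q : ℝ × ℝ) r => P q.1 q.2 r) ?_ 0 1
    exact hP.comp ((contDiff_fst.comp contDiff_fst).prodMk
      ((contDiff_snd.comp contDiff_fst).prodMk contDiff_snd))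
  have hA : ∀ s, HasDerivAt (fun s => ∫ t in (0 : ℝ)..1, ∫ r in (0 : ℝ)..1, P s t r)
      (∫ t in (0 : ℝ)..1, ∫ r in (0 : ℝ)..1, deriv (fun x => P x t r) s) s := by
    intro s
    have h1 := param_deriv (f := fun s t => ∫ r in (0 : ℝ)..1, P s t r) hPin 0 1 s
    have h2 : (∫ t in (0 : ℝ)..1, deriv (fun s => ∫ r in (0 : ℝ)..1, P s t r) s) =
        ∫ t in (0 : ℝ)..1, ∫ r in (0 : ℝ)..1, deriv (fun x => P x t r) s := by
      congr 1
      funext t
      exact (param_deriv (contDiff_slice1 hP t) 0 1 s).deriv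
    rw [h2] at h1
    exact h1
  have hzero : ∀ s ∈ Icc (0 : ℝ) 1,
      ∫ t in (0 : ℝ)..1, ∫ r in (0 : ℝ)..1, deriv (fun x => P x t r) s = 0 := by
    intro s hs
    have hQs : ContDiff ℝ ∞ (fun q : ℝ × ℝ => Q s q.1 q.2) :=
      hQ.comp (contDiff_const.prodMk (contDiff_fst.prodMk contDiff_snd))
    have hRs : ContDiff ℝ ∞ (fun q : ℝ × ℝ => R s q.1 q.2) :=
      hR.comp (contDiff_const.prodMk (contDiff_fst.prodMk contDiff_snd))
    have hQd : ContDiff ℝ ∞ (fun q : ℝ × ℝ => deriv (fun x => Q s x q.2) q.1) := by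
      have h4 : ContDiff ℝ ∞ (Function.uncurry (fun (q : ℝ × ℝ) (x : ℝ) => Q s x q.2)) :=
        hQs.comp (contDiff_snd.prodMk (contDiff_snd.comp contDiff_fst))
      have h5 : ContDiff ℝ ∞ (fun q : ℝ × ℝ => fderiv ℝ (fun x => Q s x q.2) q.1) :=
        h4.fderiv contDiff_fst (by simp)
      exact h5.clm_apply contDiff_const
    have hRd : ContDiff ℝ ∞ (fun q : ℝ × ℝ => deriv (fun x => R s q.1 x) q.2) := by
      have h4 : ContDiff ℝ ∞ (Function.uncurry (fun (q : ℝ × ℝ) (x : ℝ) => R s q.1 x)) :=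
        hRs.comp ((contDiff_fst.comp contDiff_fst).prodMk contDiff_snd)
      have h5 : ContDiff ℝ ∞ (fun q : ℝ × ℝ => fderiv ℝ (fun x => R s q.1 x) q.2) :=
        h4.fderiv contDiff_snd (by simp)
      exact h5.clm_apply contDiff_const
    have hin : ∀ t ∈ Icc (0 : ℝ) 1, ∫ r in (0 : ℝ)..1, deriv (fun x => P x t r) s =
        deriv (fun x => ∫ r in (0 : ℝ)..1, Q s x r) t := by
      intro t ht
      have h1 : ∫ r in (0 : ℝ)..1, deriv (fun x => P x t r) s =
          ∫ r in (0 : ℝ)..1, (deriv (fun x => Q s x r) t - deriv (fun x => R s t x) r) := by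
        refine intervalIntegral.integral_congr fun r hr => ?_
        rw [uIcc_of_le zero_le_one] at hr
        exact h s hs t ht r hr
      rw [h1, intervalIntegral.integral_sub]
      · have h2 : ∫ r in (0 : ℝ)..1, deriv (fun x => R s t x) r = 0 := by
          rw [intervalIntegral.integral_eq_sub_of_hasDerivAt (f := fun x => R s t x)]
          · rw [(hR0 s hs t ht).1, (hR0 s hs t ht).2, sub_zero]
          · intro r _
            have h3 : ContDiff ℝ ∞ (fun x => R s t x) :=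
              hRs.comp (contDiff_const.prodMk contDiff_id)
            exact ((h3.differentiable (by simp)) r).hasDerivAt
          · exact (hRd.continuous.comp (Continuous.prodMk_right t)).intervalIntegrable _ _
        rw [h2, sub_zero]
        exact (param_deriv hQs 0 1 t).deriv.symm
      · exact (hQd.continuous.comp (Continuous.prodMk_right t)).intervalIntegrable _ _
      · exact (hRd.continuous.comp (Continuous.prodMk_right t)).intervalIntegrable _ _
    have h1 : ∫ t in (0 : ℝ)..1, ∫ r in (0 : ℝ)..1, deriv (fun x => P x t r) s =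
        ∫ t in (0 : ℝ)..1, deriv (fun x => ∫ r in (0 : ℝ)..1, Q s x r) t := by
      refine intervalIntegral.integral_congr fun t ht => ?_
      rw [uIcc_of_le zero_le_one] at ht
      exact hin t ht
    have hQin : ContDiff ℝ ∞ (fun x => ∫ r in (0 : ℝ)..1, Q s x r) :=
      Pool.Agent.W585.contDiff_param (F := fun (x : ℝ) r => Q s x r) hQs 0 1
    have hQin' : Continuous (deriv (fun x => ∫ r in (0 : ℝ)..1, Q s x r)) :=
      hQin.continuous_deriv (by simp)
    rw [h1, intervalIntegral.integral_eq_sub_of_hasDerivAt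
      (f := fun x => ∫ r in (0 : ℝ)..1, Q s x r)
      (fun t _ => ((hQin.differentiable (by simp)) t).hasDerivAt)
      (hQin'.intervalIntegrable _ _)]
    have h2 : ∫ r in (0 : ℝ)..1, Q s 1 r = 0 := by
      rw [intervalIntegral.integral_congr (g := fun _ => 0), intervalIntegral.integral_zero]
      intro r hr
      rw [uIcc_of_le zero_le_one] at hr
      exact (hQ0 s hs r hr).2
    have h3 : ∫ r in (0 : ℝ)..1, Q s 0 r = 0 := by
      rw [intervalIntegral.integral_congr (g := fun _ => 0), intervalIntegral.integral_zero]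
      intro r hr
      rw [uIcc_of_le zero_le_one] at hr
      exact (hQ0 s hs r hr).1
    show (∫ r in (0 : ℝ)..1, Q s 1 r) - (∫ r in (0 : ℝ)..1, Q s 0 r) = 0
    rw [h2, h3, sub_zero]
  have hcont : ContinuousOn (fun s => ∫ t in (0 : ℝ)..1, ∫ r in (0 : ℝ)..1, P s t r) (Icc 0 1) :=
    fun s _ => (hA s).continuousAt.continuousWithinAt
  have := constant_of_has_deriv_right_zero hcont
    (fun s hs => by
      have h1 := (hA s).hasDerivWithinAt (s := Ici s)
      rw [hzero s ⟨hs.1, hs.2.le⟩] at h1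
      exact h1) 1 ⟨zero_le_one, le_rfl⟩
  exact this

end Q170.CF
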