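import Pool.Agent.Q170.CF.Defs
import Pool.Agent.Q170.CF.Stokes

/-!
# The area of a square depends only on its homotopy class relative to the boundary
-/

set_option autoImplicit false
set_option maxSynthPendingDepth 3
set_option linter.unusedSectionVars false

open Set Filter Topology MeasureTheory
open scoped ContDiff Manifold

namespace Q170.CF

variable {E : Type} [NormedAddCommGroup E] [NormedSpace ℝ E] [FiniteDimensional ℝ E]

theorem exists_cutoff {K U : Set E} (hK : IsCompact K) (hU : IsOpen U) (hKU : K ⊆ U) :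
    ∃ (χ : E → ℝ) (K' : Set E), ContDiff ℝ ∞ χ ∧ IsCompact K' ∧ K' ⊆ U ∧
      (∀ x, x ∉ K' → χ x = 0) ∧ ∀ᶠ x in 𝓝ˢ K, χ x = 1 := by
  obtain ⟨K', hK', h1, h2⟩ := exists_compact_between hK hU hKU
  obtain ⟨β, b1, b2, b3⟩ := exists_contMDiffMap_one_nhds_of_subset_interior
    (I := 𝓘(ℝ, E)) (n := ⊤) hK.isClosed h1
  exact ⟨β, K', β.contMDiff.contDiff, hK', h2, fun x hx => b2 x hx, b1⟩

/-- A function which is smooth on an open set and vanishes off a compact subset is smooth. -/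
theorem contDiff_of_support {F : Type*} [NormedAddCommGroup F] [NormedSpace ℝ F] {f : E → F}
    {K U : Set E} (hK : IsCompact K) (hU : IsOpen U) (hKU : K ⊆ U) (hf : ContDiffOn ℝ ∞ f U)
    (h0 : ∀ x, x ∉ K → f x = 0) : ContDiff ℝ ∞ f := by
  rw [contDiff_iff_contDiffAt]
  intro x
  by_cases hx : x ∈ K
  · exact (hf x (hKU hx)).contDiffAt (hU.mem_nhds (hKU hx))
  · have h1 : f =ᶠ[𝓝 x] fun _ => 0 := by
      filter_upwards [hK.isClosed.isOpen_compl.mem_nhds hx] with y hy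
      exact h0 y hy
    exact contDiffAt_const.congr_of_eventuallyEq h1

/-- The symplectic area of a parametrised square. -/
noncomputable def area (Ω : E → E →L[ℝ] E →L[ℝ] ℝ) (u : ℝ × ℝ → E) : ℝ :=
  ∫ t in (0 : ℝ)..1, ∫ r in (0 : ℝ)..1,
    Ω (u (t, r)) (fderiv ℝ u (t, r) (1, 0)) (fderiv ℝ u (t, r) (0, 1))

theorem hasDerivAt_tri {A : ℝ → E →L[ℝ] E →L[ℝ] ℝ} {a b : ℝ → E} {A' : E →L[ℝ] E →L[ℝ] ℝ}
    {a' b' : E} {x : ℝ} (hA : HasDerivAt A A' x) (ha : HasDerivAt a a' x)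
    (hb : HasDerivAt b b' x) :
    HasDerivAt (fun x => A x (a x) (b x)) (A' (a x) (b x) + A x a' (b x) + A x (a x) b') x := by
  have h := (hA.clm_apply ha).clm_apply hb
  simpa using h

theorem hasDerivAt_slice1 {F : Type*} [NormedAddCommGroup F] [NormedSpace ℝ F] {w : ℝ × ℝ → F}
    (hw : ContDiff ℝ ∞ w) (t r : ℝ) :
    HasDerivAt (fun x => w (x, r)) (fderiv ℝ w (t, r) (1, 0)) t := by
  have h1 : HasDerivAt (fun x : ℝ => (x, r)) ((1 : ℝ), (0 : ℝ)) t :=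
    (hasDerivAt_id t).prodMk (hasDerivAt_const t r)
  exact HasFDerivAt.comp_hasDerivAt t ((hw.differentiable (by simp)) (t, r)).hasFDerivAt h1

theorem hasDerivAt_slice2 {F : Type*} [NormedAddCommGroup F] [NormedSpace ℝ F] {w : ℝ × ℝ → F}
    (hw : ContDiff ℝ ∞ w) (t r : ℝ) :
    HasDerivAt (fun x => w (t, x)) (fderiv ℝ w (t, r) (0, 1)) r := by
  have h1 : HasDerivAt (fun x : ℝ => (t, x)) ((0 : ℝ), (1 : ℝ)) r :=
    (hasDerivAt_const r t).prodMk (hasDerivAt_id r)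
  exact HasFDerivAt.comp_hasDerivAt r ((hw.differentiable (by simp)) (t, r)).hasFDerivAt h1

theorem contDiff_pd {F : Type*} [NormedAddCommGroup F] [NormedSpace ℝ F] {w : ℝ × ℝ → F}
    (hw : ContDiff ℝ ∞ w) (a : ℝ × ℝ) : ContDiff ℝ ∞ (fun q => fderiv ℝ w q a) :=
  (hw.fderiv_right (by simp)).clm_apply contDiff_const

theorem fderiv_pd {F : Type*} [NormedAddCommGroup F] [NormedSpace ℝ F] {w : ℝ × ℝ → F}
    (hw : ContDiff ℝ ∞ w) (a b : ℝ × ℝ) (q : ℝ × ℝ) :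
    fderiv ℝ (fun q => fderiv ℝ w q a) q b = fderiv ℝ (fderiv ℝ w) q b a := by
  have h1 : ContDiff ℝ ∞ (fderiv ℝ w) := hw.fderiv_right (by simp)
  have h2 := ((h1.differentiable (by simp)) q).hasFDerivAt.clm_apply
    (hasFDerivAt_const (𝕜 := ℝ) a q)
  rw [h2.fderiv]
  simp

theorem mixed {F : Type*} [NormedAddCommGroup F] [NormedSpace ℝ F] {w : ℝ × ℝ → F}
    (hw : ContDiff ℝ ∞ w) (a b : ℝ × ℝ) (q : ℝ × ℝ) :
    fderiv ℝ (fun q => fderiv ℝ w q a) q b = fderiv ℝ (fun q => fderiv ℝ w q b) q a := by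
  rw [fderiv_pd hw, fderiv_pd hw]
  have h : IsSymmSndFDerivAt ℝ w q := (hw.contDiffAt).isSymmSndFDerivAt (by
    rw [minSmoothness_of_isRCLikeNormedField]
    exact WithTop.coe_le_coe.2 le_top)
  exact h b a

/-- **Homotopy invariance of the area.** -/
theorem area_eq {X : Set E} (hX : IsOpen X) {Ω : E → E →L[ℝ] E →L[ℝ] ℝ}
    (hΩ : SymplecticOn X Ω) (u v : ℝ × ℝ → E) (hu : ContDiff ℝ ∞ u) (hv : ContDiff ℝ ∞ v)
    (hb1 : ∀ r ∈ Icc (0 : ℝ) 1, u (0, r) = v (0, r) ∧ u (1, r) = v (1, r))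
    (hb2 : ∀ t ∈ Icc (0 : ℝ) 1, u (t, 0) = v (t, 0) ∧ u (t, 1) = v (t, 1))
    (hs : ∀ q ∈ Icc (0 : ℝ) 1 ×ˢ Icc (0 : ℝ) 1, ∀ s ∈ Icc (0 : ℝ) 1,
      u q + s • (v q - u q) ∈ X) : area Ω u = area Ω v := by
  set d : ℝ × ℝ → E := fun q => v q - u q with hd
  have hdc : ContDiff ℝ ∞ d := hv.sub hu
  -- the image of the homotopy and the cut off form
  let G : ℝ × (ℝ × ℝ) → E := fun p => u p.2 + p.1 • d p.2
  have hG : ContDiff ℝ ∞ G :=
    (hu.comp contDiff_snd).add (contDiff_fst.smul (hdc.comp contDiff_snd))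
  let C : Set (ℝ × (ℝ × ℝ)) := Icc (0 : ℝ) 1 ×ˢ (Icc (0 : ℝ) 1 ×ˢ Icc (0 : ℝ) 1)
  have hC : IsCompact C := isCompact_Icc.prod (isCompact_Icc.prod isCompact_Icc)
  have hK : IsCompact (G '' C) := hC.image hG.continuous
  have hKX : G '' C ⊆ X := by
    rintro _ ⟨⟨s, q⟩, ⟨h1, h2⟩, rfl⟩
    exact hs q h2 s h1
  obtain ⟨χ, K', hχ, hK', hK'X, hχ0, hχ1⟩ := exists_cutoff hK hX hKX
  let Ω' : E → E →L[ℝ] E →L[ℝ] ℝ := fun x => χ x • Ω x
  have hΩ' : ContDiff ℝ ∞ Ω' := by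
    refine contDiff_of_support hK' hX hK'X (hχ.contDiffOn.smul hΩ.smooth) fun x hx => ?_
    show χ x • Ω x = 0
    rw [hχ0 x hx, zero_smul]
  have hΩev : ∀ p ∈ C, Ω' =ᶠ[𝓝 (G p)] Ω := by
    intro p hp
    have h1 : ∀ᶠ x in 𝓝 (G p), χ x = 1 := (eventually_nhdsSet_iff_forall.1 hχ1) _
      (mem_image_of_mem G hp)
    filter_upwards [h1] with x hx
    show χ x • Ω x = Ω x
    rw [hx, one_smul]
  have hΩalt : ∀ p ∈ C, ∀ a b, Ω (G p) a b = -Ω (G p) b a := by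
    intro p hp a b
    have hx : G p ∈ X := hKX (mem_image_of_mem G hp)
    have h1 := hΩ.alternating (G p) hx (a + b)
    simp only [map_add, add_apply, hΩ.alternating (G p) hx a, hΩ.alternating (G p) hx b] at h1
    linarith
  have hDalt : ∀ p ∈ C, ∀ c a b, fderiv ℝ Ω' (G p) c a b = -fderiv ℝ Ω' (G p) c b a := by
    intro p hp c a b
    have hx : G p ∈ X := hKX (mem_image_of_mem G hp)
    have h0 : ∀ a b, HasFDerivAt (fun x => Ω' x a b)
        (((fderiv ℝ Ω' (G p)).flip a).flip b) (G p) := by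
      intro a b
      have h2 := (((hΩ'.differentiable (by simp)) (G p)).hasFDerivAt.clm_apply
        (hasFDerivAt_const (𝕜 := ℝ) a (G p))).clm_apply (hasFDerivAt_const (𝕜 := ℝ) b (G p))
      refine h2.congr_fderiv ?_
      ext z
      simp
    have h1 : (fun x => Ω' x a b) =ᶠ[𝓝 (G p)] fun x => -(Ω' x b a) := by
      filter_upwards [hX.mem_nhds hx] with x hx
      show χ x * Ω x a b = -(χ x * Ω x b a)
      have h1 := hΩ.alternating x hx (a + b)
      simp only [map_add, add_apply, hΩ.alternating x hx a, hΩ.alternating x hx b] at h1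
      have : Ω x a b = -Ω x b a := by linarith
      rw [this]
      ring
    have h2 := (h0 a b).congr_of_eventuallyEq h1.symm
    have h3 := h2.unique (h0 b a).neg
    have h4 := DFunLike.congr_fun h3 c
    simpa using h4
  have hDcl : ∀ p ∈ C, ∀ a b c, fderiv ℝ Ω' (G p) a b c + fderiv ℝ Ω' (G p) b c a +
      fderiv ℝ Ω' (G p) c a b = 0 := by
    intro p hp a b c
    rw [(hΩev p hp).fderiv_eq]
    exact hΩ.closed (G p) (hKX (mem_image_of_mem G hp)) a b c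
  -- the three components of the pulled back form
  let P : ℝ → ℝ → ℝ → ℝ := fun s t r => Ω' (u (t, r) + s • d (t, r))
    (fderiv ℝ u (t, r) (1, 0) + s • fderiv ℝ d (t, r) (1, 0))
    (fderiv ℝ u (t, r) (0, 1) + s • fderiv ℝ d (t, r) (0, 1))
  let Q : ℝ → ℝ → ℝ → ℝ := fun s t r => Ω' (u (t, r) + s • d (t, r)) (d (t, r))
    (fderiv ℝ u (t, r) (0, 1) + s • fderiv ℝ d (t, r) (0, 1))
  let R : ℝ → ℝ → ℝ → ℝ := fun s t r => Ω' (u (t, r) + s • d (t, r)) (d (t, r))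
    (fderiv ℝ u (t, r) (1, 0) + s • fderiv ℝ d (t, r) (1, 0))
  have hq2 : ContDiff ℝ ∞ (fun q : ℝ × ℝ × ℝ => ((q.2.1, q.2.2) : ℝ × ℝ)) := contDiff_snd
  have hGs : ContDiff ℝ ∞ (fun q : ℝ × ℝ × ℝ => Ω' (u (q.2.1, q.2.2) + q.1 • d (q.2.1, q.2.2))) :=
    hΩ'.comp hG
  have hds : ContDiff ℝ ∞ (fun q : ℝ × ℝ × ℝ => d (q.2.1, q.2.2)) := hdc.comp hq2
  have hUa : ∀ a : ℝ × ℝ, ContDiff ℝ ∞ (fun q : ℝ × ℝ × ℝ =>
      fderiv ℝ u (q.2.1, q.2.2) a + q.1 • fderiv ℝ d (q.2.1, q.2.2) a) := fun a =>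
    ((contDiff_pd hu a).comp hq2).add (contDiff_fst.smul ((contDiff_pd hdc a).comp hq2))
  have hP : ContDiff ℝ ∞ (fun q : ℝ × ℝ × ℝ => P q.1 q.2.1 q.2.2) :=
    (hGs.clm_apply (hUa (1, 0))).clm_apply (hUa (0, 1))
  have hQ : ContDiff ℝ ∞ (fun q : ℝ × ℝ × ℝ => Q q.1 q.2.1 q.2.2) :=
    (hGs.clm_apply hds).clm_apply (hUa (0, 1))
  have hR : ContDiff ℝ ∞ (fun q : ℝ × ℝ × ℝ => R q.1 q.2.1 q.2.2) :=
    (hGs.clm_apply hds).clm_apply (hUa (1, 0))
  have hmain : ∀ s ∈ Icc (0 : ℝ) 1, ∀ t ∈ Icc (0 : ℝ) 1, ∀ r ∈ Icc (0 : ℝ) 1,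
      deriv (fun x => P x t r) s = deriv (fun x => Q s x r) t - deriv (fun x => R s t x) r := by
    intro s hs' t ht r hr
    have hp : ((s, (t, r)) : ℝ × (ℝ × ℝ)) ∈ C := ⟨hs', ht, hr⟩
    set w : ℝ × ℝ → E := fun q => u q + s • d q with hw
    have hwc : ContDiff ℝ ∞ w := hu.add (contDiff_const.smul hdc)
    have hwd : ∀ q a, fderiv ℝ w q a = fderiv ℝ u q a + s • fderiv ℝ d q a := by
      intro q a
      have h1 : HasFDerivAt w (fderiv ℝ u q + s • fderiv ℝ d q) q :=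
        ((hu.differentiable (by simp)) q).hasFDerivAt.add
          (((hdc.differentiable (by simp)) q).hasFDerivAt.const_smul s)
      rw [h1.fderiv]
      rfl
    have hΩd : ∀ x, HasFDerivAt Ω' (fderiv ℝ Ω' x) x := fun x =>
      ((hΩ'.differentiable (by simp)) x).hasFDerivAt
    -- derivative of `P` in `s`
    have dP : HasDerivAt (fun x => P x t r)
        (fderiv ℝ Ω' (w (t, r)) (d (t, r)) (fderiv ℝ w (t, r) (1, 0)) (fderiv ℝ w (t, r) (0, 1)) +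
          Ω' (w (t, r)) (fderiv ℝ d (t, r) (1, 0)) (fderiv ℝ w (t, r) (0, 1)) +
          Ω' (w (t, r)) (fderiv ℝ w (t, r) (1, 0)) (fderiv ℝ d (t, r) (0, 1))) s := by
      have e0 : ∀ (a b : E), HasDerivAt (fun x : ℝ => a + x • b) b s := by
        intro a b
        have := ((hasDerivAt_id s).smul_const b).const_add a
        simpa using this
      have h1 : HasDerivAt (fun x : ℝ => Ω' (u (t, r) + x • d (t, r)))
          (fderiv ℝ Ω' (u (t, r) + s • d (t, r)) (d (t, r))) s :=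
        HasFDerivAt.comp_hasDerivAt s (hΩd (u (t, r) + s • d (t, r))) (e0 (u (t, r)) (d (t, r)))
      have h2 := hasDerivAt_tri h1 (e0 (fderiv ℝ u (t, r) (1, 0)) (fderiv ℝ d (t, r) (1, 0)))
        (e0 (fderiv ℝ u (t, r) (0, 1)) (fderiv ℝ d (t, r) (0, 1)))
      rw [hwd, hwd]
      exact h2
    have dQ : HasDerivAt (fun x => Q s x r)
        (fderiv ℝ Ω' (w (t, r)) (fderiv ℝ w (t, r) (1, 0)) (d (t, r)) (fderiv ℝ w (t, r) (0, 1)) +
          Ω' (w (t, r)) (fderiv ℝ d (t, r) (1, 0)) (fderiv ℝ w (t, r) (0, 1)) +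
          Ω' (w (t, r)) (d (t, r)) (fderiv ℝ (fun q => fderiv ℝ w q (0, 1)) (t, r) (1, 0))) t := by
      have h1 : HasDerivAt (fun x : ℝ => Ω' (w (x, r)))
          (fderiv ℝ Ω' (w (t, r)) (fderiv ℝ w (t, r) (1, 0))) t :=
        HasFDerivAt.comp_hasDerivAt t (hΩd (w (t, r))) (hasDerivAt_slice1 hwc t r)
      have h2 := hasDerivAt_tri h1 (hasDerivAt_slice1 hdc t r)
        (hasDerivAt_slice1 (contDiff_pd hwc (0, 1)) t r)
      refine h2.congr_of_eventuallyEq (Eventually.of_forall fun x => ?_)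
      show Q s x r = Ω' (w (x, r)) (d (x, r)) (fderiv ℝ w (x, r) (0, 1))
      rw [hwd]
    have dR : HasDerivAt (fun x => R s t x)
        (fderiv ℝ Ω' (w (t, r)) (fderiv ℝ w (t, r) (0, 1)) (d (t, r)) (fderiv ℝ w (t, r) (1, 0)) +
          Ω' (w (t, r)) (fderiv ℝ d (t, r) (0, 1)) (fderiv ℝ w (t, r) (1, 0)) +
          Ω' (w (t, r)) (d (t, r)) (fderiv ℝ (fun q => fderiv ℝ w q (1, 0)) (t, r) (0, 1))) r := by
      have h1 : HasDerivAt (fun x : ℝ => Ω' (w (t, x)))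
          (fderiv ℝ Ω' (w (t, r)) (fderiv ℝ w (t, r) (0, 1))) r :=
        HasFDerivAt.comp_hasDerivAt r (hΩd (w (t, r))) (hasDerivAt_slice2 hwc t r)
      have h2 := hasDerivAt_tri h1 (hasDerivAt_slice2 hdc t r)
        (hasDerivAt_slice2 (contDiff_pd hwc (1, 0)) t r)
      refine h2.congr_of_eventuallyEq (Eventually.of_forall fun x => ?_)
      show R s t x = Ω' (w (t, x)) (d (t, x)) (fderiv ℝ w (t, x) (1, 0))
      rw [hwd]
    rw [dP.deriv, dQ.deriv, dR.deriv, mixed hwc (1, 0) (0, 1)]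
    have hGp : w (t, r) = G (s, (t, r)) := rfl
    have a1 : Ω' (w (t, r)) (fderiv ℝ w (t, r) (1, 0)) (fderiv ℝ d (t, r) (0, 1)) =
        -Ω' (w (t, r)) (fderiv ℝ d (t, r) (0, 1)) (fderiv ℝ w (t, r) (1, 0)) := by
      rw [hGp, (hΩev _ hp).eq_of_nhds]
      exact hΩalt _ hp _ _
    have a2 := hDcl _ hp (d (t, r)) (fderiv ℝ w (t, r) (1, 0)) (fderiv ℝ w (t, r) (0, 1))
    have a3 := hDalt _ hp (fderiv ℝ w (t, r) (1, 0)) (fderiv ℝ w (t, r) (0, 1)) (d (t, r))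
    rw [← hGp] at a2 a3
    rw [a1]
    linarith
  have hd0 : ∀ r ∈ Icc (0 : ℝ) 1, d (0, r) = 0 ∧ d (1, r) = 0 := fun r hr => by
    have h := hb1 r hr
    exact ⟨by rw [hd]; simp only; rw [h.1, sub_self], by rw [hd]; simp only; rw [h.2, sub_self]⟩
  have hd1 : ∀ t ∈ Icc (0 : ℝ) 1, d (t, 0) = 0 ∧ d (t, 1) = 0 := fun t ht => by
    have h := hb2 t ht
    exact ⟨by rw [hd]; simp only; rw [h.1, sub_self], by rw [hd]; simp only; rw [h.2, sub_self]⟩
  have hst := stokes P Q R hP hQ hR hmain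
    (fun s _ r hr => by
      constructor
      · show Ω' _ (d (0, r)) _ = 0
        rw [(hd0 r hr).1, map_zero, zero_apply]
      · show Ω' _ (d (1, r)) _ = 0
        rw [(hd0 r hr).2, map_zero, zero_apply])
    (fun s _ t ht => by
      constructor
      · show Ω' _ (d (t, 0)) _ = 0
        rw [(hd1 t ht).1, map_zero, zero_apply]
      · show Ω' _ (d (t, 1)) _ = 0
        rw [(hd1 t ht).2, map_zero, zero_apply])
  have e0 : area Ω u = ∫ t in (0 : ℝ)..1, ∫ r in (0 : ℝ)..1, P 0 t r := by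
    unfold area
    refine intervalIntegral.integral_congr fun t ht => ?_
    refine intervalIntegral.integral_congr fun r hr => ?_
    rw [uIcc_of_le zero_le_one] at ht hr
    have hp : (((0 : ℝ), (t, r)) : ℝ × (ℝ × ℝ)) ∈ C := ⟨⟨le_rfl, zero_le_one⟩, ht, hr⟩
    have h1 := (hΩev _ hp).eq_of_nhds
    have h2 : G (0, (t, r)) = u (t, r) + (0 : ℝ) • d (t, r) := rfl
    show Ω (u (t, r)) _ _ = Ω' (u (t, r) + (0 : ℝ) • d (t, r)) _ _
    rw [← h2, h1, h2]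
    simp only [zero_smul, add_zero]
  have e1 : area Ω v = ∫ t in (0 : ℝ)..1, ∫ r in (0 : ℝ)..1, P 1 t r := by
    unfold area
    refine intervalIntegral.integral_congr fun t ht => ?_
    refine intervalIntegral.integral_congr fun r hr => ?_
    rw [uIcc_of_le zero_le_one] at ht hr
    have hp : (((1 : ℝ), (t, r)) : ℝ × (ℝ × ℝ)) ∈ C := ⟨⟨zero_le_one, le_rfl⟩, ht, hr⟩
    have h1 := (hΩev _ hp).eq_of_nhds
    have h2 : G (1, (t, r)) = u (t, r) + (1 : ℝ) • d (t, r) := rfl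
    have h3 : u (t, r) + (1 : ℝ) • d (t, r) = v (t, r) := by
      rw [one_smul, hd]
      simp only
      abel
    have h4 : ∀ a, fderiv ℝ u (t, r) a + (1 : ℝ) • fderiv ℝ d (t, r) a = fderiv ℝ v (t, r) a := by
      intro a
      have h5 : HasFDerivAt d (fderiv ℝ v (t, r) - fderiv ℝ u (t, r)) (t, r) :=
        ((hv.differentiable (by simp)) (t, r)).hasFDerivAt.sub
          ((hu.differentiable (by simp)) (t, r)).hasFDerivAt
      rw [h5.fderiv, one_smul, sub_apply]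
      abel
    show Ω (v (t, r)) _ _ = Ω' (u (t, r) + (1 : ℝ) • d (t, r)) _ _
    rw [h4, h4, ← h2, h1, h2, h3]
  rw [e0, e1, hst]

end Q170.CF
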