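import Pool.Agent.Q170.CF.Loop

/-!
# Only countably many maps of a flow with flux are Hamiltonian
-/

set_option autoImplicit false
set_option maxSynthPendingDepth 3
set_option linter.unusedSectionVars false

open Set Filter Topology
open scoped ContDiff

namespace Q170.CF

theorem countable_of_sep {ι Z : Type} [PseudoMetricSpace Z] [SecondCountableTopology Z]
    (f : ι → Z) (δ : ι → ℝ) (hδ : ∀ i, 0 < δ i) (h : ∀ i j, dist (f j) (f i) < δ i → j = i) :
    Countable ι := by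
  let T : TopologicalSpace ι := TopologicalSpace.induced f inferInstance
  have h1 : @SecondCountableTopology ι T := TopologicalSpace.secondCountableTopology_induced _ _ f
  have h2 : @DiscreteTopology ι T := by
    rw [@discreteTopology_iff_isOpen_singleton ι T]
    intro i
    refine ⟨Metric.ball (f i) (δ i), Metric.isOpen_ball, ?_⟩
    ext j
    constructor
    · intro hj
      exact h i j hj
    · intro hj
      have hj' : j = i := hj
      rw [hj']
      exact Metric.mem_ball_self (hδ i)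
  have h3 : @TopologicalSpace.SeparableSpace ι T :=
    @TopologicalSpace.SecondCountableTopology.to_separableSpace ι T h1
  exact (@TopologicalSpace.separableSpace_iff_countable ι T h2).1 h3

variable {E : Type} [NormedAddCommGroup E] [NormedSpace ℝ E] [FiniteDimensional ℝ E]

theorem IsHamFlow.ode' {X : Set E} {Ω : E → E →L[ℝ] E →L[ℝ] ℝ} {p : E} {K : Set E}
    {H : ℝ → E → ℝ} {Φ : ℝ → Equiv.Perm E} (h : IsHamFlow (X \ {p}) Ω K H Φ)
    (hK : IsCompact K) (hpK : p ∉ K) {t : ℝ} (ht : t ∈ Icc (0 : ℝ) 1) {x : E} (hx : x ∈ X) :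
    ∃ v : E, HasDerivWithinAt (fun s => Φ s x) v (Icc (0 : ℝ) 1) t ∧
      ∀ w, Ω (Φ t x) v w = fderiv ℝ (H t) (Φ t x) w := by
  by_cases hxp : x = p
  · subst hxp
    have e1 : Φ t x = x := h.support_flow t ht x hpK
    refine ⟨0, ?_, fun w => ?_⟩
    · refine (hasDerivWithinAt_const t (Icc (0 : ℝ) 1) x).congr (fun s hs => ?_) e1
      exact h.support_flow s hs x hpK
    · have h1 : H t =ᶠ[𝓝 x] fun _ => 0 := by
        filter_upwards [hK.isClosed.isOpen_compl.mem_nhds hpK] with y hy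
        exact h.support t ht y hy
      rw [e1, h1.fderiv_eq]
      simp
  · exact h.ode t ht x ⟨hx, hxp⟩

/-- The square traced out by a path from the puncture to a point at infinity. -/
theorem exists_square {X : Set E} {Ω : E → E →L[ℝ] E →L[ℝ] ℝ} {p q₁ : E} (hX : IsOpen X)
    {β : E → ℝ} {ψ : ℝ → Equiv.Perm E} (hψ : Gen X Ω (fun _ => β) ψ) (hβ : ContDiff ℝ ∞ β)
    (hψ0 : ψ 0 = 1) (hψadd : ∀ s t, ψ (s + t) = ψ s * ψ t) (hψp : ∀ t, ψ t p = p)
    (hβp : β p = 1) (hψq : ∀ t, ψ t q₁ = q₁) (hβq : β q₁ = 0) {l : ℝ → E}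
    (hl : ContDiff ℝ ∞ l) (hl0 : l 0 = p) (hl1 : l 1 = q₁) (hlX : ∀ r ∈ Icc (0 : ℝ) 1, l r ∈ X)
    {K : Set E} (hKX : K ⊆ X \ {p}) (hK : IsCompact K) (hqK : q₁ ∉ K) {H : ℝ → E → ℝ}
    {Φ : ℝ → Equiv.Perm E} {s : ℝ} (h : IsHamFlow (X \ {p}) Ω K H Φ) (h1 : Φ 1 = ψ s) :
    ∃ u : ℝ × ℝ → E, ContDiff ℝ ∞ u ∧ (∀ r, u (0, r) = l r ∧ u (1, r) = l r) ∧
      (∀ t, u (t, 0) = p ∧ u (t, 1) = q₁) ∧
      (∀ q ∈ Icc (0 : ℝ) 1 ×ˢ Icc (0 : ℝ) 1, u q ∈ X) ∧ area Ω u = s := by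
  have hpK : p ∉ K := fun hh => (hKX hh).2 rfl
  have hKX' : K ⊆ X := fun x hx => (hKX hx).1
  let σ : ℝ → ℝ := Real.smoothTransition
  have hσ : ContDiff ℝ ∞ σ := Real.smoothTransition.contDiff
  have hσI : ∀ t, σ t ∈ Icc (0 : ℝ) 1 := fun t =>
    ⟨Real.smoothTransition.nonneg t, Real.smoothTransition.le_one t⟩
  have hσ0 : σ 0 = 0 := Real.smoothTransition.zero
  have hσ1 : σ 1 = 1 := Real.smoothTransition.one
  have hσd : ∀ t, HasDerivAt σ (deriv σ t) t := fun t =>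
    ((hσ.differentiable (by simp)) t).hasDerivAt
  let τ : ℝ → ℝ := fun t => -s * σ t
  have hτ : ContDiff ℝ ∞ τ := contDiff_const.mul hσ
  let A : ℝ → Equiv.Perm E := fun t => ψ (τ t)
  have hA : Gen X Ω (fun t x => deriv τ t * β x) A := hψ.reparam hX hτ
  let P : ℝ × ℝ → E := fun q => Φ (σ q.1) (l q.2)
  have hP : ContDiff ℝ ∞ P := by
    have h2 : ContDiff ℝ ∞ (fun q : ℝ × ℝ => (σ q.1, l q.2)) :=
      (hσ.comp contDiff_fst).prodMk (hl.comp contDiff_snd)
    have h3 := h.smooth_flow.comp_contDiff h2 (fun q => ⟨hσI q.1, mem_univ _⟩)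
    simp only [Function.comp_def] at h3
    exact h3
  let u : ℝ × ℝ → E := fun q => A q.1 (P q)
  have hu : ContDiff ℝ ∞ u := by
    have h2 : ContDiff ℝ ∞ (fun q : ℝ × ℝ => (q.1, P q)) := contDiff_fst.prodMk hP
    have h3 := hA.smooth.comp h2
    simp only [Function.comp_def] at h3
    exact h3
  have hΦX : ∀ t ∈ Icc (0 : ℝ) 1, ∀ x, Φ t x ∈ X ↔ x ∈ X := fun t ht =>
    perm_maps hKX' (h.support_flow t ht)
  have hAp : ∀ t, A t p = p := fun t => hψp _
  have hAq : ∀ t, A t q₁ = q₁ := fun t => hψq _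
  have hu0 : ∀ t, u (t, 0) = p := by
    intro t
    show A t (Φ (σ t) (l 0)) = p
    rw [hl0, h.support_flow _ (hσI t) _ hpK, hAp]
  have hu1 : ∀ t, u (t, 1) = q₁ := by
    intro t
    show A t (Φ (σ t) (l 1)) = q₁
    rw [hl1, h.support_flow _ (hσI t) _ hqK, hAq]
  refine ⟨u, hu, fun r => ⟨?_, ?_⟩, fun t => ⟨hu0 t, hu1 t⟩, ?_, ?_⟩
  · show ψ (-s * σ 0) (Φ (σ 0) (l r)) = l r
    rw [hσ0, mul_zero, hψ0, h.zero]
    rfl
  · show ψ (-s * σ 1) (Φ (σ 1) (l r)) = l r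
    rw [hσ1, h1, mul_one]
    have h2 : ψ (-s + s) = ψ (-s) * ψ s := hψadd _ _
    rw [neg_add_cancel, hψ0] at h2
    have h3 : (ψ (-s) * ψ s) (l r) = l r := by
      rw [← h2]
      rfl
    exact h3
  · rintro ⟨t, r⟩ ⟨_, hr⟩
    exact (hA.maps t _).2 ((hΦX _ (hσI t) _).2 (hlX r hr))
  · -- the area
    have hHs : ∀ t ∈ Icc (0 : ℝ) 1, ContDiff ℝ ∞ (H t) := by
      intro t ht
      have h2 : ContDiff ℝ ∞ (fun x : E => (t, x)) := contDiff_const.prodMk contDiff_id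
      have h3 := h.smooth.comp_contDiff h2 (fun x => ⟨ht, mem_univ _⟩)
      simp only [Function.comp_def] at h3
      exact h3
    let 𝓕 : ℝ → E → ℝ := fun t z => deriv τ t * β z + deriv σ t * H (σ t) ((A t).symm z)
    have h𝓕 : ∀ t, ContDiff ℝ ∞ (𝓕 t) := fun t =>
      (contDiff_const.mul hβ).add (contDiff_const.mul ((hHs _ (hσI t)).comp (hA.sm_symm t)))
    have key : ∀ t, ∀ r ∈ Icc (0 : ℝ) 1, ∀ w,
        Ω (u (t, r)) (fderiv ℝ u (t, r) (1, 0)) w = fderiv ℝ (𝓕 t) (u (t, r)) w := by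
      intro t r hr w
      obtain ⟨v, hv1, hv2⟩ := h.ode' hK hpK (hσI t) (hlX r hr)
      have hγ : HasDerivAt (fun t' => P (t', r)) (deriv σ t • v) t := by
        have h2 : HasDerivWithinAt σ (deriv σ t) univ t := (hσd t).hasDerivWithinAt
        have h3 := HasDerivWithinAt.scomp (g₁ := fun s => Φ s (l r)) t hv1 h2
          (fun t' _ => hσI t')
        exact h3.hasDerivAt univ_mem
      have hγX : P (t, r) ∈ X := (hΦX _ (hσI t) _).2 (hlX r hr)
      have hd : DifferentiableAt ℝ (H (σ t)) (P (t, r)) :=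
        ((hHs _ (hσI t)).differentiable (by simp)) _
      have h2 := comp_ode hX hA (γ := fun t' => P (t', r)) hγ hγX
        (F' := fun z => deriv σ t * H (σ t) z) (hd.const_mul _) (fun w => by
          have h5 : fderiv ℝ (fun z => deriv σ t * H (σ t) z) (P (t, r)) = _ :=
            (hd.hasFDerivAt.const_mul (deriv σ t)).fderiv
          rw [h5, map_smul, smul_apply, smul_apply, hv2])
      have h3 : fderiv ℝ u (t, r) (1, 0) = _ := (hasDerivAt_slice1 hu t r).unique h2.1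
      rw [h3]
      exact h2.2 w
    have hin : ∀ t, ∫ r in (0 : ℝ)..1,
        Ω (u (t, r)) (fderiv ℝ u (t, r) (1, 0)) (fderiv ℝ u (t, r) (0, 1)) = -deriv τ t := by
      intro t
      have hd : ∀ r, HasDerivAt (fun r => 𝓕 t (u (t, r)))
          (fderiv ℝ (𝓕 t) (u (t, r)) (fderiv ℝ u (t, r) (0, 1))) r := by
        intro r
        exact HasFDerivAt.comp_hasDerivAt (l := 𝓕 t) (f := fun r => u (t, r)) r
          (((h𝓕 t).differentiable (by simp)) _).hasFDerivAt (hasDerivAt_slice2 hu t r)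
      have h2 : ∫ r in (0 : ℝ)..1,
          Ω (u (t, r)) (fderiv ℝ u (t, r) (1, 0)) (fderiv ℝ u (t, r) (0, 1)) =
          ∫ r in (0 : ℝ)..1, fderiv ℝ (𝓕 t) (u (t, r)) (fderiv ℝ u (t, r) (0, 1)) := by
        refine intervalIntegral.integral_congr fun r hr => ?_
        rw [uIcc_of_le zero_le_one] at hr
        exact key t r hr _
      have hcont : Continuous (fun r => fderiv ℝ (𝓕 t) (u (t, r)) (fderiv ℝ u (t, r) (0, 1))) := by
        have c1 : Continuous (fun r : ℝ => ((t, r) : ℝ × ℝ)) := by fun_prop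
        have c2 : Continuous (fderiv ℝ (𝓕 t)) := (h𝓕 t).continuous_fderiv (by simp)
        have c3 : Continuous (fun q => fderiv ℝ u q (0, 1)) := (contDiff_pd hu (0, 1)).continuous
        exact (c2.comp (hu.continuous.comp c1)).clm_apply (c3.comp c1)
      rw [h2, intervalIntegral.integral_eq_sub_of_hasDerivAt (fun r _ => hd r)
        (hcont.intervalIntegrable _ _), hu0, hu1]
      have e1 : (A t).symm q₁ = q₁ := by
        rw [Equiv.symm_apply_eq]
        exact (hAq t).symm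
      have e2 : (A t).symm p = p := by
        rw [Equiv.symm_apply_eq]
        exact (hAp t).symm
      show (deriv τ t * β q₁ + deriv σ t * H (σ t) ((A t).symm q₁)) -
        (deriv τ t * β p + deriv σ t * H (σ t) ((A t).symm p)) = _
      rw [e1, e2, hβp, hβq, h.support _ (hσI t) _ hqK, h.support _ (hσI t) _ hpK]
      ring
    unfold area
    rw [intervalIntegral.integral_congr (g := fun t => -deriv τ t) (fun t _ => hin t)]
    have hτd : ∀ t, HasDerivAt (fun t => -τ t) (-deriv τ t) t := fun t =>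
      (((hτ.differentiable (by simp)) t).hasDerivAt).neg
    have hτc : Continuous (fun t => -deriv τ t) := (hτ.continuous_deriv (by simp)).neg
    rw [intervalIntegral.integral_eq_sub_of_hasDerivAt (fun t _ => hτd t)
      (hτc.intervalIntegrable _ _)]
    show -(-s * σ 1) - -(-s * σ 0) = s
    rw [hσ0, hσ1]
    ring

theorem countable_flux {X : Set E} {Ω : E → E →L[ℝ] E →L[ℝ] ℝ} {p q₁ : E}
    (hΩ : SymplecticOn X Ω)
    {β : E → ℝ} {ψ : ℝ → Equiv.Perm E} (hψ : Gen X Ω (fun _ => β) ψ) (hβ : ContDiff ℝ ∞ β)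
    (hψ0 : ψ 0 = 1) (hψadd : ∀ s t, ψ (s + t) = ψ s * ψ t) (hψp : ∀ t, ψ t p = p)
    (hβp : β p = 1) (hψq : ∀ t, ψ t q₁ = q₁) (hβq : β q₁ = 0) {l : ℝ → E}
    (hl : ContDiff ℝ ∞ l) (hl0 : l 0 = p) (hl1 : l 1 = q₁) (hlX : ∀ r ∈ Icc (0 : ℝ) 1, l r ∈ X) :
    {s : ℝ | ∃ K ⊆ X \ {p}, IsCompact K ∧ q₁ ∉ K ∧ ∃ H Φ, IsHamFlow (X \ {p}) Ω K H Φ ∧
      Φ 1 = ψ s}.Countable := by
  set S := {s : ℝ | ∃ K ⊆ X \ {p}, IsCompact K ∧ q₁ ∉ K ∧ ∃ H Φ, IsHamFlow (X \ {p}) Ω K H Φ ∧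
      Φ 1 = ψ s} with hS
  have hex : ∀ s : S, ∃ u : ℝ × ℝ → E, ContDiff ℝ ∞ u ∧ (∀ r, u (0, r) = l r ∧ u (1, r) = l r) ∧
      (∀ t, u (t, 0) = p ∧ u (t, 1) = q₁) ∧
      (∀ q ∈ Icc (0 : ℝ) 1 ×ˢ Icc (0 : ℝ) 1, u q ∈ X) ∧ area Ω u = s := by
    rintro ⟨s, K, hKX, hK, hqK, H, Φ, h, h1⟩
    exact exists_square hΩ.isOpen hψ hβ hψ0 hψadd hψp hβp hψq hβq hl hl0 hl1 hlX hKX hK hqK h h1
  choose u hu1 hu2 hu3 hu4 hu5 using hex
  let Q : Set (ℝ × ℝ) := Icc (0 : ℝ) 1 ×ˢ Icc (0 : ℝ) 1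
  have hQ : IsCompact Q := isCompact_Icc.prod isCompact_Icc
  have : CompactSpace Q := isCompact_iff_compactSpace.1 hQ
  have hδ : ∀ s : S, ∃ δ : ℝ, 0 < δ ∧ Metric.thickening δ (u s '' Q) ⊆ X := by
    intro s
    refine (hQ.image (hu1 s).continuous).exists_thickening_subset_open hΩ.isOpen ?_
    rintro _ ⟨q, hq, rfl⟩
    exact hu4 s q hq
  choose δ hδ1 hδ2 using hδ
  let f : S → C(Q, E) := fun s => ⟨fun q => u s q, (hu1 s).continuous.comp continuous_subtype_val⟩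
  have hc : Countable S := by
    refine countable_of_sep f δ hδ1 fun s' s hd => ?_
    have h1 : area Ω (u s) = area Ω (u s') := by
      refine (area_eq hΩ.isOpen hΩ (u s') (u s) (hu1 s') (hu1 s)
        (fun r _ => ⟨?_, ?_⟩) (fun t _ => ⟨?_, ?_⟩) ?_).symm
      · rw [(hu2 s r).1, (hu2 s' r).1]
      · rw [(hu2 s r).2, (hu2 s' r).2]
      · rw [(hu3 s t).1, (hu3 s' t).1]
      · rw [(hu3 s t).2, (hu3 s' t).2]
      · intro q hq τ hτ
        apply hδ2 s'
        rw [Metric.mem_thickening_iff]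
        refine ⟨u s' q, mem_image_of_mem _ hq, ?_⟩
        rw [dist_eq_norm, add_sub_cancel_left, norm_smul]
        have h2 : dist (f s ⟨q, hq⟩) (f s' ⟨q, hq⟩) < δ s' :=
          lt_of_le_of_lt (ContinuousMap.dist_apply_le_dist _) hd
        have h3 : ‖u s q - u s' q‖ < δ s' := by
          rw [dist_eq_norm] at h2
          exact h2
        calc ‖τ‖ * ‖u s q - u s' q‖ ≤ 1 * ‖u s q - u s' q‖ := by
              gcongr
              rw [Real.norm_of_nonneg hτ.1]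
              exact hτ.2
          _ < δ s' := by rwa [one_mul]
    rw [hu5, hu5] at h1
    exact Subtype.ext h1
  exact countable_coe_iff.1 hc

end Q170.CF
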