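import Mathlib

/-!
# Symplectic forms on open subsets of a vector space, and their groups of compactly supported
symplectomorphisms and Hamiltonian symplectomorphisms
-/

set_option autoImplicit false

open Set Filter Topology
open scoped ContDiff

namespace Q170.CF

variable {E : Type} [NormedAddCommGroup E] [NormedSpace ℝ E]

/-- `Ω` is a symplectic form on the open subset `M` of the real vector space `E`: a smooth field of
alternating nondegenerate bilinear forms with exterior derivative zero. -/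
structure SymplecticOn (M : Set E) (Ω : E → E →L[ℝ] E →L[ℝ] ℝ) : Prop where
  isOpen : IsOpen M
  smooth : ContDiffOn ℝ ∞ Ω M
  alternating : ∀ x ∈ M, ∀ v, Ω x v v = 0
  nondegenerate : ∀ x ∈ M, ∀ v, (∀ w, Ω x v w = 0) → v = 0
  closed : ∀ x ∈ M, ∀ u v w,
    fderiv ℝ Ω x u v w + fderiv ℝ Ω x v w u + fderiv ℝ Ω x w u v = 0

/-- `φ` is (the extension by the identity of) a symplectomorphism of `(M, Ω)` which is the identity
off `K`: a diffeomorphism of `E` which is the identity off `K` and preserves `Ω` on `M`. -/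
structure IsSympSupp (M : Set E) (Ω : E → E →L[ℝ] E →L[ℝ] ℝ) (K : Set E)
    (φ : Equiv.Perm E) : Prop where
  smooth : ContDiff ℝ ∞ φ
  smooth_symm : ContDiff ℝ ∞ φ.symm
  support : ∀ x, x ∉ K → φ x = x
  symplectic : ∀ x ∈ M, ∀ v w, Ω (φ x) (fderiv ℝ φ x v) (fderiv ℝ φ x w) = Ω x v w

/-- `Symp_{c,0}(M, Ω)`: the time-one maps of the smooth isotopies of symplectomorphisms of `(M, Ω)`
starting at the identity, all supported in one compact subset of `M`. The maps are extended to `E`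
by the identity. -/
def SympC0 (M : Set E) (Ω : E → E →L[ℝ] E →L[ℝ] ℝ) : Set (Equiv.Perm E) :=
  {φ | ∃ K ⊆ M, IsCompact K ∧ ∃ Φ : ℝ → Equiv.Perm E,
    ContDiffOn ℝ ∞ (fun p : ℝ × E => Φ p.1 p.2) (Icc (0 : ℝ) 1 ×ˢ univ) ∧
    (∀ t ∈ Icc (0 : ℝ) 1, IsSympSupp M Ω K (Φ t)) ∧ Φ 0 = 1 ∧ Φ 1 = φ}

/-- `Φ`, defined for times in `[0, 1]`, is the flow of the smooth time dependent Hamiltonian `H` on
`(M, Ω)`, where `H` is supported in `[0, 1] × K`: the velocity `v` at time `t` of `Φ_t(x)` is the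
value at `Φ_t(x)` of the vector field `X_t` with `ι(X_t) Ω = d H_t`. -/
structure IsHamFlow (M : Set E) (Ω : E → E →L[ℝ] E →L[ℝ] ℝ) (K : Set E) (H : ℝ → E → ℝ)
    (Φ : ℝ → Equiv.Perm E) : Prop where
  smooth : ContDiffOn ℝ ∞ (fun p : ℝ × E => H p.1 p.2) (Icc (0 : ℝ) 1 ×ˢ univ)
  support : ∀ t ∈ Icc (0 : ℝ) 1, ∀ x, x ∉ K → H t x = 0
  smooth_flow : ContDiffOn ℝ ∞ (fun p : ℝ × E => Φ p.1 p.2) (Icc (0 : ℝ) 1 ×ˢ univ)
  support_flow : ∀ t ∈ Icc (0 : ℝ) 1, ∀ x, x ∉ K → Φ t x = x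
  zero : Φ 0 = 1
  ode : ∀ t ∈ Icc (0 : ℝ) 1, ∀ x ∈ M, ∃ v : E,
    HasDerivWithinAt (fun s => Φ s x) v (Icc (0 : ℝ) 1) t ∧
      ∀ w, Ω (Φ t x) v w = fderiv ℝ (H t) (Φ t x) w

/-- `Ham_c(M, Ω)`: the time-one maps of the flows of the smooth time dependent Hamiltonians
supported in `[0, 1] × K` for some compact subset `K` of `M`. -/
def HamC (M : Set E) (Ω : E → E →L[ℝ] E →L[ℝ] ℝ) : Set (Equiv.Perm E) :=
  {φ | ∃ K ⊆ M, IsCompact K ∧ ∃ H Φ, IsHamFlow M Ω K H Φ ∧ Φ 1 = φ}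

/-- `ψ` is a limit, uniformly together with all derivatives, of a sequence of elements of `S`
which are all the identity off one compact subset of `M`. -/
def IsLimit (M : Set E) (S : Set (Equiv.Perm E)) (ψ : Equiv.Perm E) : Prop :=
  ∃ (K : Set E) (φ : ℕ → Equiv.Perm E), K ⊆ M ∧ IsCompact K ∧
    (∀ j, φ j ∈ S ∧ ∀ x, x ∉ K → φ j x = x) ∧
    TendstoUniformly (fun j x => φ j x) ψ atTop ∧
    ∀ k : ℕ, TendstoUniformly (fun j x => iteratedFDeriv ℝ k (φ j) x) (iteratedFDeriv ℝ k ψ) atTop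

/-- `ℝ⁶` -/
abbrev R6 : Type := (Fin 3 → ℝ) × (Fin 3 → ℝ)

end Q170.CF
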