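import Pool.Agent.Q170.CF.Area
import Pool.Agent.H864R3.Flow

/-!
# Isotopies of symplectomorphisms generated by Hamiltonians
-/

set_option autoImplicit false
set_option maxSynthPendingDepth 3
set_option linter.unusedSectionVars false

open Set Filter Topology
open scoped ContDiff

namespace Q170.CF

variable {E : Type} [NormedAddCommGroup E] [NormedSpace ℝ E] [FiniteDimensional ℝ E]

theorem mixed' {G F : Type*} [NormedAddCommGroup G] [NormedSpace ℝ G]
    [NormedAddCommGroup F] [NormedSpace ℝ F] {w : G → F}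
    (hw : ContDiff ℝ ∞ w) (a b : G) (q : G) :
    fderiv ℝ (fun q => fderiv ℝ w q a) q b = fderiv ℝ (fun q => fderiv ℝ w q b) q a := by
  have h1 : ContDiff ℝ ∞ (fderiv ℝ w) := hw.fderiv_right (by simp)
  have key : ∀ a b : G, fderiv ℝ (fun q => fderiv ℝ w q a) q b =
      fderiv ℝ (fderiv ℝ w) q b a := by
    intro a b
    have h2 := ((h1.differentiable (by simp)) q).hasFDerivAt.clm_apply
      (hasFDerivAt_const (𝕜 := ℝ) a q)
    rw [h2.fderiv]
    simp
  rw [key, key]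
  have h : IsSymmSndFDerivAt ℝ w q := (hw.contDiffAt).isSymmSndFDerivAt (by
    rw [minSmoothness_of_isRCLikeNormedField]
    exact WithTop.coe_le_coe.2 le_top)
  exact h b a

theorem joint_fst {F : Type*} [NormedAddCommGroup F] [NormedSpace ℝ F] {w : ℝ × E → F}
    (hw : ContDiff ℝ ∞ w) (t : ℝ) (x : E) :
    HasDerivAt (fun s => w (s, x)) (fderiv ℝ w (t, x) (1, 0)) t := by
  have h1 : HasDerivAt (fun s : ℝ => (s, x)) ((1 : ℝ), (0 : E)) t :=
    (hasDerivAt_id t).prodMk (hasDerivAt_const t x)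
  exact HasFDerivAt.comp_hasDerivAt t ((hw.differentiable (by simp)) (t, x)).hasFDerivAt h1

theorem joint_snd {F : Type*} [NormedAddCommGroup F] [NormedSpace ℝ F] {w : ℝ × E → F}
    (hw : ContDiff ℝ ∞ w) (t : ℝ) (x : E) :
    HasFDerivAt (fun y => w (t, y))
      ((fderiv ℝ w (t, x)).comp (ContinuousLinearMap.inr ℝ ℝ E)) x := by
  have h1 : HasFDerivAt (fun y : E => (t, y)) (ContinuousLinearMap.inr ℝ ℝ E) x :=
    hasFDerivAt_prodMk_right t x
  exact ((hw.differentiable (by simp)) (t, x)).hasFDerivAt.comp x h1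

/-- `Φ` is a smooth isotopy of symplectomorphisms of `(X, Ω)` with Hamiltonian `F`. -/
structure Gen (X : Set E) (Ω : E → E →L[ℝ] E →L[ℝ] ℝ) (F : ℝ → E → ℝ)
    (Φ : ℝ → Equiv.Perm E) : Prop where
  smooth : ContDiff ℝ ∞ (fun p : ℝ × E => Φ p.1 p.2)
  smooth_symm : ContDiff ℝ ∞ (fun p : ℝ × E => (Φ p.1).symm p.2)
  maps : ∀ t x, Φ t x ∈ X ↔ x ∈ X
  symp : ∀ t, ∀ x ∈ X, ∀ v w, Ω (Φ t x) (fderiv ℝ (Φ t) x v) (fderiv ℝ (Φ t) x w) = Ω x v w
  smoothF : ContDiffOn ℝ ∞ (fun p : ℝ × E => F p.1 p.2) (univ ×ˢ X)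
  ode : ∀ t, ∀ x ∈ X, ∀ w, Ω (Φ t x) (deriv (fun s => Φ s x) t) w = fderiv ℝ (F t) (Φ t x) w

theorem slice_smooth {F : Type*} [NormedAddCommGroup F] [NormedSpace ℝ F] {w : ℝ → E → F}
    (hw : ContDiff ℝ ∞ (fun p : ℝ × E => w p.1 p.2)) (t : ℝ) : ContDiff ℝ ∞ (w t) :=
  hw.comp (contDiff_const.prodMk contDiff_id)

theorem slice_smoothAt {X : Set E} (hX : IsOpen X) {F : ℝ → E → ℝ}
    (hF : ContDiffOn ℝ ∞ (fun p : ℝ × E => F p.1 p.2) (univ ×ˢ X)) (t : ℝ) {x : E} (hx : x ∈ X) :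
    ContDiffAt ℝ ∞ (F t) x := by
  have h1 : ContDiffAt ℝ ∞ (fun p : ℝ × E => F p.1 p.2) (t, x) :=
    (hF (t, x) ⟨mem_univ _, hx⟩).contDiffAt ((isOpen_univ.prod hX).mem_nhds ⟨mem_univ _, hx⟩)
  have h2 : ContDiffAt ℝ ∞ (fun y : E => (t, y)) x := contDiffAt_const.prodMk contDiffAt_id
  exact ContDiffAt.comp (g := fun p : ℝ × E => F p.1 p.2) x h1 h2

theorem Gen.sm {X : Set E} {Ω : E → E →L[ℝ] E →L[ℝ] ℝ} {F : ℝ → E → ℝ}
    {Φ : ℝ → Equiv.Perm E} (h : Gen X Ω F Φ) (t : ℝ) : ContDiff ℝ ∞ (Φ t) :=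
  slice_smooth (w := fun t x => Φ t x) h.smooth t

theorem Gen.sm_symm {X : Set E} {Ω : E → E →L[ℝ] E →L[ℝ] ℝ} {F : ℝ → E → ℝ}
    {Φ : ℝ → Equiv.Perm E} (h : Gen X Ω F Φ) (t : ℝ) : ContDiff ℝ ∞ (Φ t).symm :=
  slice_smooth (w := fun t x => (Φ t).symm x) h.smooth_symm t

theorem symm_deriv {Φ : Equiv.Perm E} (h1 : ContDiff ℝ ∞ Φ) (h2 : ContDiff ℝ ∞ Φ.symm) (y w : E) :
    fderiv ℝ Φ y (fderiv ℝ Φ.symm (Φ y) w) = w := by
  have h3 : HasFDerivAt (fun z => Φ (Φ.symm z)) ((fderiv ℝ Φ (Φ.symm (Φ y))).comp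
      (fderiv ℝ Φ.symm (Φ y))) (Φ y) :=
    ((h1.differentiable (by simp)) _).hasFDerivAt.comp _
      ((h2.differentiable (by simp)) _).hasFDerivAt
  have h4 : HasFDerivAt (fun z => Φ (Φ.symm z)) (ContinuousLinearMap.id ℝ E) (Φ y) := by
    simp only [Equiv.apply_symm_apply]
    exact hasFDerivAt_id _
  have h5 := DFunLike.congr_fun (h3.unique h4) w
  simpa using h5

/-- The Hamiltonian of the composition of an isotopy with a moving point. -/
theorem comp_ode {X : Set E} {Ω : E → E →L[ℝ] E →L[ℝ] ℝ} {F : ℝ → E → ℝ}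
    {Φ : ℝ → Equiv.Perm E} (hX : IsOpen X) (h : Gen X Ω F Φ) {γ : ℝ → E} {t : ℝ} {v' : E}
    (hγ : HasDerivAt γ v' t) (hγX : γ t ∈ X) {F' : E → ℝ} (hF' : DifferentiableAt ℝ F' (γ t))
    (hv' : ∀ w, Ω (γ t) v' w = fderiv ℝ F' (γ t) w) :
    HasDerivAt (fun s => Φ s (γ s)) (deriv (fun s => Φ s (γ t)) t + fderiv ℝ (Φ t) (γ t) v') t ∧
    ∀ w, Ω (Φ t (γ t)) (deriv (fun s => Φ s (γ t)) t + fderiv ℝ (Φ t) (γ t) v') w =
      fderiv ℝ (fun z => F t z + F' ((Φ t).symm z)) (Φ t (γ t)) w := by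
  have j1 := joint_fst h.smooth t (γ t)
  have j2 := joint_snd h.smooth t (γ t)
  have hd1 : deriv (fun s => Φ s (γ t)) t =
      fderiv ℝ (fun p : ℝ × E => Φ p.1 p.2) (t, γ t) (1, 0) := j1.deriv
  have hd2 : fderiv ℝ (Φ t) (γ t) v' =
      fderiv ℝ (fun p : ℝ × E => Φ p.1 p.2) (t, γ t) (0, v') := by
    have : fderiv ℝ (Φ t) (γ t) = _ := j2.fderiv
    rw [this]
    simp
  constructor
  · have h1 : HasDerivAt (fun s => (s, γ s)) ((1 : ℝ), v') t := (hasDerivAt_id t).prodMk hγ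
    have h2 := HasFDerivAt.comp_hasDerivAt (l := fun p : ℝ × E => Φ p.1 p.2)
      (f := fun s => (s, γ s)) t ((h.smooth.differentiable (by simp)) (t, γ t)).hasFDerivAt h1
    have e : ((1 : ℝ), (0 : E)) + (0, v') = (1, v') := by simp
    rw [hd1, hd2, ← map_add, e]
    exact h2
  · intro w
    have hsm := h.sm t
    have hsm' := h.sm_symm t
    have e1 := symm_deriv hsm hsm' (γ t) w
    have hF1 : DifferentiableAt ℝ (F t) (Φ t (γ t)) :=
      (slice_smoothAt hX h.smoothF t ((h.maps t (γ t)).2 hγX)).differentiableAt (by simp)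
    have hF2 : HasFDerivAt (fun z => F' ((Φ t).symm z))
        ((fderiv ℝ F' (γ t)).comp (fderiv ℝ (Φ t).symm (Φ t (γ t)))) (Φ t (γ t)) := by
      have h3 : HasFDerivAt F' (fderiv ℝ F' (γ t)) ((Φ t).symm (Φ t (γ t))) := by
        rw [Equiv.symm_apply_apply]
        exact hF'.hasFDerivAt
      exact h3.comp _ ((hsm'.differentiable (by simp)) _).hasFDerivAt
    have e3 : fderiv ℝ (fun z => F t z + F' ((Φ t).symm z)) (Φ t (γ t)) = _ :=
      (hF1.hasFDerivAt.add hF2).fderiv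
    rw [e3, map_add, add_apply, add_apply, h.ode t (γ t) hγX]
    congr 1
    rw [ContinuousLinearMap.comp_apply, ← hv', ← h.symp t (γ t) hγX, e1]

theorem Gen.comp {X : Set E} {Ω : E → E →L[ℝ] E →L[ℝ] ℝ} {F F' : ℝ → E → ℝ}
    {Φ Φ' : ℝ → Equiv.Perm E} (hX : IsOpen X) (h : Gen X Ω F Φ) (h' : Gen X Ω F' Φ') :
    Gen X Ω (fun t x => F t x + F' t ((Φ t).symm x)) (fun t => Φ t * Φ' t) where
  smooth := h.smooth.comp (contDiff_fst.prodMk h'.smooth)
  smooth_symm := h'.smooth_symm.comp (contDiff_fst.prodMk h.smooth_symm)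
  maps t x := by
    show Φ t (Φ' t x) ∈ X ↔ x ∈ X
    rw [h.maps, h'.maps]
  symp t x hx v w := by
    have h1 : HasFDerivAt (Φ t * Φ' t : Equiv.Perm E)
        ((fderiv ℝ (Φ t) (Φ' t x)).comp (fderiv ℝ (Φ' t) x)) x :=
      HasFDerivAt.comp (g := Φ t) (f := Φ' t) x
        (((h.sm t).differentiable (by simp)) _).hasFDerivAt
        (((h'.sm t).differentiable (by simp)) _).hasFDerivAt
    rw [h1.fderiv]
    show Ω (Φ t (Φ' t x)) (fderiv ℝ (Φ t) (Φ' t x) (fderiv ℝ (Φ' t) x v))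
      (fderiv ℝ (Φ t) (Φ' t x) (fderiv ℝ (Φ' t) x w)) = _
    rw [h.symp t _ ((h'.maps t x).2 hx), h'.symp t x hx]
  smoothF := by
    refine h.smoothF.add (h'.smoothF.comp
      (contDiff_fst.prodMk h.smooth_symm).contDiffOn ?_)
    rintro ⟨t, x⟩ ⟨_, hx⟩
    refine ⟨mem_univ _, ?_⟩
    show (Φ t).symm x ∈ X
    rw [← h.maps t, Equiv.apply_symm_apply]
    exact hx
  ode t x hx w := by
    have hx' : Φ' t x ∈ X := (h'.maps t x).2 hx
    have hd : HasDerivAt (fun s => Φ' s x) (deriv (fun s => Φ' s x) t) t := by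
      rw [(joint_fst h'.smooth t x).deriv]
      exact joint_fst h'.smooth t x
    have h1 := comp_ode hX h hd hx'
      ((slice_smoothAt hX h'.smoothF t hx').differentiableAt (by simp))
      (fun w => h'.ode t x hx w)
    have h2 : deriv (fun s => (Φ s * Φ' s) x) t = _ := h1.1.deriv
    rw [h2]
    exact h1.2 w

/-- A fixed symplectomorphism, as a constant isotopy. -/
theorem Gen.const {X : Set E} {Ω : E → E →L[ℝ] E →L[ℝ] ℝ} {ρ : Equiv.Perm E}
    (h1 : ContDiff ℝ ∞ ρ) (h2 : ContDiff ℝ ∞ ρ.symm) (h3 : ∀ x, ρ x ∈ X ↔ x ∈ X)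
    (h4 : ∀ x ∈ X, ∀ v w, Ω (ρ x) (fderiv ℝ ρ x v) (fderiv ℝ ρ x w) = Ω x v w) :
    Gen X Ω (fun _ _ => 0) (fun _ => ρ) where
  smooth := h1.comp contDiff_snd
  smooth_symm := h2.comp contDiff_snd
  maps _ x := h3 x
  symp _ x hx v w := h4 x hx v w
  smoothF := contDiffOn_const
  ode t x _ w := by simp

theorem symp_symm {X : Set E} {Ω : E → E →L[ℝ] E →L[ℝ] ℝ} {ρ : Equiv.Perm E}
    (h1 : ContDiff ℝ ∞ ρ) (h2 : ContDiff ℝ ∞ ρ.symm) (h3 : ∀ x, ρ x ∈ X ↔ x ∈ X)
    (h4 : ∀ x ∈ X, ∀ v w, Ω (ρ x) (fderiv ℝ ρ x v) (fderiv ℝ ρ x w) = Ω x v w) :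
    (∀ x, ρ.symm x ∈ X ↔ x ∈ X) ∧
    ∀ x ∈ X, ∀ v w, Ω (ρ.symm x) (fderiv ℝ ρ.symm x v) (fderiv ℝ ρ.symm x w) = Ω x v w := by
  have h5 : ∀ x, ρ.symm x ∈ X ↔ x ∈ X := fun x => by
    rw [← h3 (ρ.symm x), Equiv.apply_symm_apply]
  refine ⟨h5, fun x hx v w => ?_⟩
  have e := symm_deriv h1 h2 (ρ.symm x)
  rw [Equiv.apply_symm_apply] at e
  have h6 := h4 (ρ.symm x) ((h5 x).2 hx) (fderiv ℝ ρ.symm x v) (fderiv ℝ ρ.symm x w)
  rw [e, e, Equiv.apply_symm_apply] at h6
  exact h6.symm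

/-- The flow of a compactly supported Hamiltonian vector field. -/
theorem ham_flow {X : Set E} {Ω : E → E →L[ℝ] E →L[ℝ] ℝ} (hΩ : SymplecticOn X Ω)
    {Y : E → E} {F : E → ℝ} {K : Set E} (hY : ContDiff ℝ ∞ Y) (hK : IsCompact K) (hKX : K ⊆ X)
    (hY0 : ∀ x, x ∉ K → Y x = 0) (hF : ContDiff ℝ ∞ F)
    (hham : ∀ x ∈ X, ∀ w, Ω x (Y x) w = fderiv ℝ F x w) :
    ∃ Φ : ℝ → Equiv.Perm E, Gen X Ω (fun _ => F) Φ ∧ Φ 0 = 1 ∧
      (∀ s t, Φ (s + t) = Φ s * Φ t) ∧ (∀ t x, x ∉ K → Φ t x = x) ∧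
      (∀ t x, HasDerivAt (fun s => Φ s x) (Y (Φ t x)) t) := by
  have hcs : HasCompactSupport Y := HasCompactSupport.intro hK hY0
  obtain ⟨G, hG, hG0, hGadd, hGode⟩ := Pool.Agent.H864R3.flow_cpt Y hY hcs
  obtain ⟨L, hL⟩ := hY.lipschitzWith_of_hasCompactSupport hcs (by simp)
  have hinv : ∀ t x, G (-t) (G t x) = x := fun t x => by
    rw [← hGadd, neg_add_cancel, hG0]
  have hinv' : ∀ t x, G t (G (-t) x) = x := fun t x => by
    rw [← hGadd, add_neg_cancel, hG0]
  let Φ : ℝ → Equiv.Perm E := fun t => ⟨G t, G (-t), hinv t, hinv' t⟩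
  have hΦ : ∀ t x, Φ t x = G t x := fun _ _ => rfl
  have hfix : ∀ t x, x ∉ K → G t x = x := by
    intro t x hx
    have h1 := Pool.Agent.H864R3.zero_of_deriv_le (D := fun s => G s x - x)
      (D' := fun s => Y (G s x)) (t₀ := 0) (ε := |t| + 1) (L := L)
      (fun s _ => (hGode x s).sub_const x) (fun s _ => by
        have := hL.dist_le_mul (G s x) x
        rw [dist_eq_norm, dist_eq_norm, hY0 x hx, sub_zero] at this
        exact this) (by simp [hG0]) t (by simp)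
    exact sub_eq_zero.1 h1
  have hmaps : ∀ t x, G t x ∈ X ↔ x ∈ X := by
    intro t x
    constructor
    · intro h
      by_contra hx
      rw [hfix t x (fun h' => hx (hKX h'))] at h
      exact hx h
    · intro h
      by_contra hx
      have h1 := hfix (-t) (G t x) (fun h' => hx (hKX h'))
      rw [hinv] at h1
      rw [← h1] at hx
      exact hx h
  refine ⟨Φ, ⟨hG, ?_, hmaps, ?_, ?_, ?_⟩, ?_, ?_, hfix, fun t x => hGode x t⟩
  · exact hG.comp ((contDiff_neg.comp contDiff_fst).prodMk contDiff_snd)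
  · intro t x hx v w
    set u : ℝ × E → E := fun p => G p.1 p.2 with hu
    have hval : ∀ t v, fderiv ℝ (Φ t) x v = fderiv ℝ u (t, x) (0, v) := by
      intro t v
      have : fderiv ℝ (Φ t) x = _ := (joint_snd hG t x).fderiv
      rw [this]
      simp [hu]
    have hpd : ∀ a : ℝ × E, ContDiff ℝ ∞ (fun q => fderiv ℝ u q a) := fun a =>
      (hG.fderiv_right (by simp)).clm_apply contDiff_const
    have hdt : ∀ t v, HasDerivAt (fun s => fderiv ℝ u (s, x) (0, v))
        (fderiv ℝ Y (G t x) (fderiv ℝ u (t, x) (0, v))) t := by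
      intro t v
      have h1 := joint_fst (hpd (0, v)) t x
      rw [mixed' hG (0, v) (1, 0)] at h1
      have h2 : (fun q => fderiv ℝ u q (1, 0)) = fun q => Y (u q) := by
        funext q
        have h3 := joint_fst hG q.1 q.2
        exact h3.unique (hGode q.2 q.1)
      rw [h2] at h1
      have h4 : HasFDerivAt (fun q => Y (u q)) ((fderiv ℝ Y (u (t, x))).comp (fderiv ℝ u (t, x)))
          (t, x) :=
        ((hY.differentiable (by simp)) _).hasFDerivAt.comp _
          ((hG.differentiable (by simp)) _).hasFDerivAt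
      rw [h4.fderiv] at h1
      exact h1
    have hder : ∀ t, HasDerivAt (fun s => Ω (G s x) (fderiv ℝ u (s, x) (0, v))
        (fderiv ℝ u (s, x) (0, w))) 0 t := by
      intro t
      set z := G t x with hz
      have hzX : z ∈ X := (hmaps t x).2 hx
      set a := fderiv ℝ u (t, x) (0, v)
      set b := fderiv ℝ u (t, x) (0, w)
      have hΩd : HasFDerivAt Ω (fderiv ℝ Ω z) z :=
        (((hΩ.smooth z hzX).contDiffAt (hΩ.isOpen.mem_nhds hzX)).differentiableAt
          (by simp)).hasFDerivAt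
      have hYd : HasFDerivAt Y (fderiv ℝ Y z) z := ((hY.differentiable (by simp)) z).hasFDerivAt
      have h1 : HasDerivAt (fun s => Ω (G s x)) (fderiv ℝ Ω z (Y z)) t :=
        HasFDerivAt.comp_hasDerivAt t hΩd (hGode x t)
      have h2 := hasDerivAt_tri h1 (hdt t v) (hdt t w)
      refine h2.congr_deriv ?_
      have hD : ∀ p q : E, fderiv ℝ Ω z p (Y z) q + Ω z (fderiv ℝ Y z p) q =
          fderiv ℝ (fderiv ℝ F) z p q := by
        intro p q
        have h3 : HasFDerivAt (fun y => Ω y (Y y) q)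
            (((Ω z).comp (fderiv ℝ Y z) + (fderiv ℝ Ω z).flip (Y z)).flip q) z := by
          have h5 := (hΩd.clm_apply hYd).clm_apply (hasFDerivAt_const (𝕜 := ℝ) q z)
          refine h5.congr_fderiv ?_
          ext r
          simp
        have h4 : HasFDerivAt (fun y => fderiv ℝ F y q) ((fderiv ℝ (fderiv ℝ F) z).flip q) z := by
          have h5 : ContDiff ℝ ∞ (fderiv ℝ F) := hF.fderiv_right (by simp)
          have h6 := ((h5.differentiable (by simp)) z).hasFDerivAt.clm_apply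
            (hasFDerivAt_const (𝕜 := ℝ) q z)
          refine h6.congr_fderiv ?_
          ext r
          simp
        have h7 : (fun y => Ω y (Y y) q) =ᶠ[𝓝 z] fun y => fderiv ℝ F y q := by
          filter_upwards [hΩ.isOpen.mem_nhds hzX] with y hy
          exact hham y hy q
        have h8 := (h4.congr_of_eventuallyEq h7).unique h3
        have h9 := DFunLike.congr_fun h8 p
        simp only [ContinuousLinearMap.flip_apply, add_apply,
          ContinuousLinearMap.comp_apply] at h9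
        rw [h9]
        ring
      have hsym : fderiv ℝ (fderiv ℝ F) z a b = fderiv ℝ (fderiv ℝ F) z b a := by
        have h : IsSymmSndFDerivAt ℝ F z := (hF.contDiffAt).isSymmSndFDerivAt (by
          rw [minSmoothness_of_isRCLikeNormedField]
          exact WithTop.coe_le_coe.2 le_top)
        exact h a b
      have halt : ∀ y ∈ X, ∀ p q, Ω y p q = -Ω y q p := by
        intro y hy p q
        have h1 := hΩ.alternating y hy (p + q)
        simp only [map_add, add_apply, hΩ.alternating y hy p, hΩ.alternating y hy q] at h1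
        linarith
      have hDalt : ∀ c p q, fderiv ℝ Ω z c p q = -fderiv ℝ Ω z c q p := by
        intro c p q
        have h0 : ∀ p q, HasFDerivAt (fun x => Ω x p q) (((fderiv ℝ Ω z).flip p).flip q) z := by
          intro p q
          have h2 := (hΩd.clm_apply (hasFDerivAt_const (𝕜 := ℝ) p z)).clm_apply
            (hasFDerivAt_const (𝕜 := ℝ) q z)
          refine h2.congr_fderiv ?_
          ext r
          simp
        have h1 : (fun x => Ω x p q) =ᶠ[𝓝 z] fun x => -(Ω x q p) := by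
          filter_upwards [hΩ.isOpen.mem_nhds hzX] with y hy
          exact halt y hy p q
        have h2 := (h0 p q).congr_of_eventuallyEq h1.symm
        have h3 := h2.unique (h0 q p).neg
        have h4 := DFunLike.congr_fun h3 c
        simpa using h4
      have k1 := hD a b
      have k2 := hD b a
      have k3 := hΩ.closed z hzX (Y z) a b
      have k4 := hDalt a b (Y z)
      have k5 := halt z hzX (fderiv ℝ Y z b) a
      linarith
    have hconst := is_const_of_deriv_eq_zero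
      (f := fun s => Ω (G s x) (fderiv ℝ u (s, x) (0, v)) (fderiv ℝ u (s, x) (0, w)))
      (fun t => (hder t).differentiableAt) (fun t => (hder t).deriv) t 0
    have h0 : ∀ v, fderiv ℝ u (0, x) (0, v) = v := by
      intro v
      rw [← hval 0 v]
      have h1 : (Φ 0 : E → E) = id := by
        funext y
        exact hG0 y
      rw [h1, fderiv_id]
      rfl
    rw [hval, hval]
    show Ω (G t x) _ _ = _
    have h2 : Ω (G t x) (fderiv ℝ u (t, x) (0, v)) (fderiv ℝ u (t, x) (0, w)) =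
      Ω (G 0 x) (fderiv ℝ u (0, x) (0, v)) (fderiv ℝ u (0, x) (0, w)) := hconst
    rw [h2, h0, h0, hG0]
  · exact (hF.comp contDiff_snd).contDiffOn
  · intro t x hx w
    have h1 : deriv (fun s => Φ s x) t = Y (G t x) := (hGode x t).deriv
    rw [h1]
    exact hham _ ((hmaps t x).2 hx) w
  · ext x
    exact hG0 x
  · intro s t
    ext x
    exact hGadd s t x

end Q170.CF
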