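import Pool.Agent.Q170.CF.Rho

/-!
# Isotopies of the big manifold which are constant near the origin
-/

set_option autoImplicit false
set_option maxSynthPendingDepth 3
set_option linter.unusedSectionVars false

open Set Filter Topology
open scoped ContDiff

namespace Q170.CF

section general

variable {E : Type} [NormedAddCommGroup E] [NormedSpace ℝ E] [FiniteDimensional ℝ E]

/-- Change of time. -/
theorem Gen.reparam {X : Set E} {Ω : E → E →L[ℝ] E →L[ℝ] ℝ} {F : ℝ → E → ℝ}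
    {Φ : ℝ → Equiv.Perm E} (hX : IsOpen X) (h : Gen X Ω F Φ) {τ : ℝ → ℝ} (hτ : ContDiff ℝ ∞ τ) :
    Gen X Ω (fun t x => deriv τ t * F (τ t) x) (fun t => Φ (τ t)) where
  smooth := by
    have h1 : ContDiff ℝ ∞ (fun p : ℝ × E => (τ p.1, p.2)) :=
      (hτ.comp contDiff_fst).prodMk contDiff_snd
    exact ContDiff.comp (g := fun p : ℝ × E => Φ p.1 p.2) h.smooth h1
  smooth_symm := by
    have h1 : ContDiff ℝ ∞ (fun p : ℝ × E => (τ p.1, p.2)) :=
      (hτ.comp contDiff_fst).prodMk contDiff_snd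
    exact ContDiff.comp (g := fun p : ℝ × E => (Φ p.1).symm p.2) h.smooth_symm h1
  maps t x := h.maps (τ t) x
  symp t x hx v w := h.symp (τ t) x hx v w
  smoothF := by
    have h1 : ContDiff ℝ ∞ (fun p : ℝ × E => (τ p.1, p.2)) :=
      (hτ.comp contDiff_fst).prodMk contDiff_snd
    have h2 : ContDiff ℝ ∞ (fun p : ℝ × E => deriv τ p.1) := hτ.deriv'.comp contDiff_fst
    exact h2.contDiffOn.mul (ContDiffOn.comp (g := fun p : ℝ × E => F p.1 p.2) h.smoothF
      h1.contDiffOn fun p hp => ⟨mem_univ _, hp.2⟩)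
  ode t x hx w := by
    have h1 : HasDerivAt τ (deriv τ t) t := ((hτ.differentiable (by simp)) t).hasDerivAt
    have h2 := joint_fst h.smooth (τ t) x
    have h3 : HasDerivAt (fun s => Φ (τ s) x) (deriv τ t • deriv (fun s => Φ s x) (τ t)) t := by
      rw [h2.deriv]
      exact HasDerivAt.scomp (g₁ := fun s => Φ s x) t h2 h1
    have h4 : DifferentiableAt ℝ (F (τ t)) (Φ (τ t) x) :=
      (slice_smoothAt hX h.smoothF (τ t) ((h.maps (τ t) x).2 hx)).differentiableAt (by simp)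
    have h5 : fderiv ℝ (fun x => deriv τ t * F (τ t) x) (Φ (τ t) x) = _ :=
      (h4.hasFDerivAt.const_mul (deriv τ t)).fderiv
    rw [h3.deriv, h5, map_smul, smul_apply, smul_apply, h.ode (τ t) x hx]

/-- A Hamiltonian isotopy of `(X, Ω)` with compact support up to the normalisation of the
Hamiltonian near the point `p`, where it is equal to `a`. -/
structure Loop (X : Set E) (Ω : E → E →L[ℝ] E →L[ℝ] ℝ) (p : E) (a : ℝ) (F : ℝ → E → ℝ)
    (Φ : ℝ → Equiv.Perm E) : Prop where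
  gen : Gen X Ω F Φ
  supp : ∃ K ⊆ X, IsCompact K ∧ ∀ t ∈ Icc (0 : ℝ) 1, ∀ x, x ∉ K → F t x = 0 ∧ Φ t x = x
  near : ∀ᶠ x in 𝓝 p, ∀ t ∈ Icc (0 : ℝ) 1, F t x = a ∧ Φ t x = x
  zero : Φ 0 = 1

theorem Loop.comp {X : Set E} {Ω : E → E →L[ℝ] E →L[ℝ] ℝ} {p : E} {a a' : ℝ}
    {F F' : ℝ → E → ℝ} {Φ Φ' : ℝ → Equiv.Perm E} (hX : IsOpen X) (h : Loop X Ω p a F Φ)
    (h' : Loop X Ω p a' F' Φ') :
    Loop X Ω p (a + a') (fun t x => F t x + F' t ((Φ t).symm x)) (fun t => Φ t * Φ' t) where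
  gen := h.gen.comp hX h'.gen
  supp := by
    obtain ⟨K, hK, hKc, h1⟩ := h.supp
    obtain ⟨K', hK', hKc', h2⟩ := h'.supp
    refine ⟨K ∪ K', union_subset hK hK', hKc.union hKc', fun t ht x hx => ?_⟩
    rw [mem_union, not_or] at hx
    have e1 : (Φ t).symm x = x := by
      rw [Equiv.symm_apply_eq]
      exact (h1 t ht x hx.1).2.symm
    constructor
    · rw [e1, (h1 t ht x hx.1).1, (h2 t ht x hx.2).1, add_zero]
    · show Φ t (Φ' t x) = x
      rw [(h2 t ht x hx.2).2, (h1 t ht x hx.1).2]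
  near := by
    filter_upwards [h.near, h'.near] with x h1 h2 t ht
    have e1 : (Φ t).symm x = x := by
      rw [Equiv.symm_apply_eq]
      exact (h1 t ht).2.symm
    constructor
    · rw [e1, (h1 t ht).1, (h2 t ht).1]
    · show Φ t (Φ' t x) = x
      rw [(h2 t ht).2, (h1 t ht).2]
  zero := by
    show Φ 0 * Φ' 0 = 1
    rw [h.zero, h'.zero, one_mul]

theorem Loop.mem_HamC {X : Set E} {Ω : E → E →L[ℝ] E →L[ℝ] ℝ} {p : E}
    {F : ℝ → E → ℝ} {Φ : ℝ → Equiv.Perm E} (hX : IsOpen X) (h : Loop X Ω p 0 F Φ) :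
    Φ 1 ∈ HamC (X \ {p}) Ω := by
  obtain ⟨K, hK, hKc, h1⟩ := h.supp
  obtain ⟨U, hU, hUo, hpU⟩ := eventually_nhds_iff.1 h.near
  have hoff : ∀ t ∈ Icc (0 : ℝ) 1, ∀ x, x ∉ K \ U → F t x = 0 ∧ Φ t x = x := by
    intro t ht x hx
    by_cases hxU : x ∈ U
    · exact hU x hxU t ht
    · exact h1 t ht x fun h => hx ⟨h, hxU⟩
  refine ⟨K \ U, ?_, hKc.diff hUo, F, Φ, ?_, rfl⟩
  · intro x hx
    refine ⟨hK hx.1, ?_⟩
    rintro rfl
    exact hx.2 hpU
  · refine ⟨?_, fun t ht x hx => (hoff t ht x hx).1, h.gen.smooth.contDiffOn,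
      fun t ht x hx => (hoff t ht x hx).2, h.zero, ?_⟩
    · rintro ⟨t, x⟩ ⟨ht, -⟩
      by_cases hx : x ∈ X
      · have h2 : ContDiffWithinAt ℝ ∞ (fun p : ℝ × E => F p.1 p.2) (univ ×ˢ X) (t, x) :=
          h.gen.smoothF (t, x) ⟨mem_univ _, hx⟩
        exact (h2.contDiffAt ((isOpen_univ.prod hX).mem_nhds ⟨mem_univ _, hx⟩)).contDiffWithinAt
      · have hxK : x ∉ K := fun h => hx (hK h)
        have h2 : ContDiffWithinAt ℝ ∞ (fun _ : ℝ × E => (0 : ℝ)) (Icc (0 : ℝ) 1 ×ˢ univ) (t, x) :=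
          contDiffWithinAt_const
        refine h2.congr_of_eventuallyEq ?_ ((h1 t ht x hxK).1)
        have h3 : ∀ᶠ q : ℝ × E in 𝓝 (t, x), q.2 ∉ K :=
          (isOpen_compl_iff.2 hKc.isClosed |>.preimage continuous_snd).mem_nhds hxK
        filter_upwards [mem_nhdsWithin_of_mem_nhds h3, self_mem_nhdsWithin] with q hq1 hq2
        exact (h1 q.1 hq2.1 q.2 hq1).1
    · intro t ht x hx
      refine ⟨deriv (fun s => Φ s x) t, ?_, h.gen.ode t x hx.1⟩
      have h2 := joint_fst h.gen.smooth t x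
      rw [h2.deriv]
      exact h2.hasDerivWithinAt

end general

theorem rot_add (s : ℝ) (a b : V) : rot s (a + b) = rot s a + rot s b := map_add (rotL s) a b

theorem rot_vec_zero (s : ℝ) : rot s (0 : V) = 0 := map_zero (rotL s)

theorem rot_pt (s ζ : ℝ) : rot s (pt ζ) = pt ζ := by
  rw [rot_apply]
  refine Prod.ext (funext fun i => ?_) ?_
  · fin_cases i
    · simp [rotC_0, pt]
    · simp [rotC_1, pt]
    · rfl
  · show rotC s 0 = 0
    rw [map_zero]

theorem continuous_rot' (a : ℝ) : Continuous (fun z : V × ℝ => rot (a * z.2) z.1) := by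
  have h5 : Continuous (fun z : V × ℝ => (a * z.2, z.1)) := by fun_prop
  have h6 := Continuous.comp (g := fun p : ℝ × V => rot p.1 p.2) contDiff_rot.continuous h5
  simp only [Function.comp_def] at h6
  exact h6

theorem rot_near {ρ : Equiv.Perm V} {ζ : ℝ} (hρ1 : ∀ᶠ q in 𝓝 (0 : V), ρ.symm q = q + pt ζ)
    (a : ℝ) : ∀ᶠ x in 𝓝 (0 : V), ∀ t ∈ Icc (0 : ℝ) 1,
      ρ.symm (rot (a * t) x) = rot (a * t) x + pt ζ := by
  refine isCompact_Icc.eventually_forall_of_forall_eventually fun t _ => ?_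
  have h6 : Tendsto (fun z : V × ℝ => rot (a * z.2) z.1) (𝓝 (0, t)) (𝓝 (rot (a * t) 0)) :=
    (continuous_rot' a).tendsto (0, t)
  rw [rot_vec_zero] at h6
  exact h6.eventually hρ1

theorem cc_zero : cc 0 = 0 := by
  unfold cc
  rw [if_pos (by norm_num)]

theorem Hm_near {ζ : ℝ} (h1 : ζ ≠ 1) (h2 : ζ ≠ 2) : ∀ᶠ x in 𝓝 (0 : V),
    Hm x - Hm (x + pt ζ) = 2 * Real.pi * cc ζ := by
  have hc0 : Continuous (fun q : V => q.1 2) := by fun_prop
  have hcz : ∀ᶠ x in 𝓝 (0 : V), cc (x.1 2) = cc 0 :=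
    hc0.continuousAt.eventually (cc_ev (z := (0 : V).1 2) (by simp) (by simp))
  have hcz' : ∀ᶠ x in 𝓝 (0 : V), cc (x.1 2 + ζ) = cc ζ := by
    have h3 : Continuous (fun q : V => q.1 2 + ζ) := by fun_prop
    have h4 : Tendsto (fun q : V => q.1 2 + ζ) (𝓝 0) (𝓝 ζ) := by
      have := h3.tendsto 0
      simpa using this
    exact h4.eventually (cc_ev h1 h2)
  have hR : ∀ᶠ x in 𝓝 (0 : V), Rq x < 1 / 4 :=
    continuous_Rq.continuousAt.eventually (Iio_mem_nhds (by simp [Rq]))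
  filter_upwards [hcz, hcz', hR] with x k3 k4 k5
  have e3 : Hm (x + pt ζ) =
      2 * Real.pi * (x.1 0 * x.2 1 - x.1 1 * x.2 0 - cc ζ) := by
    have a0 : (x + pt ζ).1 0 = x.1 0 := by simp [pt]
    have a1 : (x + pt ζ).1 1 = x.1 1 := by simp [pt]
    have a2 : (x + pt ζ).1 2 = x.1 2 + ζ := by simp [pt]
    have b0 : (x + pt ζ).2 0 = x.2 0 := by simp [pt]
    have b1 : (x + pt ζ).2 1 = x.2 1 := by simp [pt]
    have a3 : Rq (x + pt ζ) = Rq x := by
      unfold Rq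
      rw [a0, a1]
    unfold Hm
    rw [a0, a1, a2, b0, b1, a3, k4, Gc_of_le k5.le, mul_one]
  have e4 : Hm x = 2 * Real.pi * (x.1 0 * x.2 1 - x.1 1 * x.2 0) := by
    unfold Hm
    rw [k3, cc_zero]
    ring
  rw [e3, e4]
  ring

/-- The commutator loop of the rotation and a compactly supported symplectomorphism translating
a neighbourhood of a point of the axis to the origin. -/
theorem exists_loop {ζ : ℝ} (h0 : 0 ≤ ζ) (h1 : ζ ≠ 1) (h2 : ζ ≠ 2) (m : ℤ) :
    ∃ F Φ, Loop XX Om 0 (2 * Real.pi * m * cc ζ) F Φ ∧ Φ 1 = 1 := by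
  obtain ⟨ρ, ⟨K, hKX, hK, hρ⟩, hρ1⟩ := exists_rho h0 h1 h2
  have hmaps := perm_maps hKX hρ.support
  have hinv := symp_symm hρ.smooth hρ.smooth_symm hmaps hρ.symplectic
  have g1 : Gen XX Om (fun _ _ => 0) (fun _ => ρ) :=
    Gen.const hρ.smooth hρ.smooth_symm hmaps hρ.symplectic
  have g2 : Gen XX Om (fun _ _ => 0) (fun _ => ρ.symm) :=
    Gen.const hρ.smooth_symm hρ.smooth hinv.1 hinv.2
  have τ1 : ContDiff ℝ ∞ (fun t : ℝ => (m : ℝ) * t) := contDiff_const.mul contDiff_id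
  have τ2 : ContDiff ℝ ∞ (fun t : ℝ => -(m : ℝ) * t) := contDiff_const.mul contDiff_id
  have d1 : ∀ t, deriv (fun t : ℝ => (m : ℝ) * t) t = m := by
    intro t
    simp
  have d2 : ∀ t, deriv (fun t : ℝ => -(m : ℝ) * t) t = -m := by
    intro t
    simp
  have g3 := gen_rot.reparam isOpen_XX τ1
  have g4 := gen_rot.reparam isOpen_XX τ2
  have g := g3.comp isOpen_XX (g1.comp isOpen_XX (g4.comp isOpen_XX g2))
  refine ⟨_, _, ⟨g, ?_, ?_, ?_⟩, ?_⟩
  · -- support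
    let C : Set V := (fun p : ℝ × V => rot p.1 p.2) '' (Icc (-|(m : ℝ)|) |(m : ℝ)| ×ˢ K)
    have hC : IsCompact C := (isCompact_Icc.prod hK).image contDiff_rot.continuous
    have hCX : C ⊆ XX := by
      rintro _ ⟨⟨t, x⟩, ⟨-, hx⟩, rfl⟩
      exact (rot_mem t x).2 (hKX hx)
    have hCK : ∀ t ∈ Icc (0 : ℝ) 1, ∀ x, x ∉ C → rot (-(m : ℝ) * t) x ∉ K ∧ x ∉ K := by
      intro t ht x hx
      constructor
      · intro h
        refine hx ⟨(m * t, rot (-(m : ℝ) * t) x), ⟨?_, h⟩, ?_⟩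
        · have h3 : |(m : ℝ) * t| ≤ |(m : ℝ)| := by
            rw [abs_mul, abs_of_nonneg ht.1]
            exact mul_le_of_le_one_right (abs_nonneg _) ht.2
          exact abs_le.1 h3
        · show rot (m * t) (rot (-(m : ℝ) * t) x) = x
          rw [neg_mul]
          exact rot_inv_apply _ _
      · intro h
        refine hx ⟨(0, x), ⟨⟨by simp, abs_nonneg _⟩, h⟩, ?_⟩
        show rot 0 x = x
        rw [rot_zero]
        rfl
    refine ⟨C, hCX, hC, fun t ht x hx => ?_⟩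
    obtain ⟨k1, k2⟩ := hCK t ht x hx
    have e1 : (rot ((m : ℝ) * t)).symm x = rot (-(m : ℝ) * t) x := by
      rw [rot_symm_apply, neg_mul]
    have e2 : ρ.symm (rot (-(m : ℝ) * t) x) = rot (-(m : ℝ) * t) x := symm_fix hρ.support _ k1
    constructor
    · simp only [d1, d2, e1, e2, Hm_rot, zero_add, add_zero]
      ring
    · show rot (m * t) (ρ (rot (-(m : ℝ) * t) (ρ.symm x))) = x
      rw [symm_fix hρ.support x k2, hρ.support _ k1, neg_mul, rot_inv_apply]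
  · -- near the origin
    filter_upwards [rot_near hρ1 (-(m : ℝ)), hρ1, Hm_near h1 h2] with x k1 k2 k3 t ht
    have e1 : (rot ((m : ℝ) * t)).symm x = rot (-(m : ℝ) * t) x := by
      rw [rot_symm_apply, neg_mul]
    have e2 : Hm (rot (-(m : ℝ) * t) x + pt ζ) = Hm (x + pt ζ) := by
      have : rot (-(m : ℝ) * t) x + pt ζ = rot (-(m : ℝ) * t) (x + pt ζ) := by
        rw [rot_add, rot_pt]
      rw [this, Hm_rot]
    constructor
    · simp only [d1, d2, e1, k1 t ht, e2, zero_add, add_zero]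
      linear_combination (m : ℝ) * k3
    · show rot (m * t) (ρ (rot (-(m : ℝ) * t) (ρ.symm x))) = x
      rw [k2, rot_add, rot_pt, ← k1 t ht, Equiv.apply_symm_apply, neg_mul, rot_inv_apply]
  · ext1 x
    show rot (m * 0) (ρ (rot (-(m : ℝ) * 0) (ρ.symm x))) = x
    rw [mul_zero, mul_zero, rot_zero]
    exact ρ.apply_symm_apply x
  · ext1 x
    show rot (m * 1) (ρ (rot (-(m : ℝ) * 1) (ρ.symm x))) = x
    have e : -(m : ℝ) * 1 = ((-m : ℤ) : ℝ) := by
      push_cast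
      ring
    rw [e, mul_one, rot_int, rot_int]
    exact ρ.apply_symm_apply x

end Q170.CF
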