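import Pool.Agent.Q170.CF.Count

/-!
# Non-closedness of the Hamiltonian group of a noncompact symplectic manifold
-/

set_option autoImplicit false
set_option maxSynthPendingDepth 3
set_option linter.unusedSectionVars false

open Set Filter Topology
open scoped ContDiff

namespace Q170.CF

/-! ### The punctured manifold is connected -/

/-- the punctured manifold -/
def MM : Set V := XX \ {0}

theorem isConnected_MM : IsConnected MM := by
  have hmem : ∀ q : V, q ∈ MM ↔ ((q.1 2 ≠ 1 ∧ q.1 2 ≠ 2) ∨ 1 < Rq q) ∧ q ≠ 0 := fun q => Iff.rfl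
  let y₀ : Fin 3 → ℝ := e2
  have hy₀ : y₀ ≠ 0 := fun h => by
    have := congrFun h 2
    simp [y₀, e2] at this
  have hb : (((2 : ℝ) • e0, y₀) : V) ∈ MM := by
    rw [hmem]
    refine ⟨Or.inr ?_, fun h => hy₀ (congrArg Prod.snd h)⟩
    simp [Rq, e0]
  -- horizontal and vertical moves with nonzero second coordinate
  have hseg : ∀ (a b y : Fin 3 → ℝ), y ≠ 0 → (∀ t ∈ Icc (0 : ℝ) 1,
      (((a + t • (b - a)) 2 ≠ 1 ∧ (a + t • (b - a)) 2 ≠ 2) ∨
        1 < (a + t • (b - a)) 0 ^ 2 + (a + t • (b - a)) 1 ^ 2)) →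
      JoinedIn MM ((a, y) : V) (b, y) := by
    intro a b y hy h
    apply JoinedIn.of_segment_subset
    rw [segment_eq_image']
    rintro _ ⟨t, ht, rfl⟩
    have e : ((a, y) : V) + t • (((b, y) : V) - (a, y)) = (a + t • (b - a), y) := by
      refine Prod.ext rfl ?_
      simp
    simp only
    rw [e, hmem]
    exact ⟨h t ht, fun h => hy (congrArg Prod.snd h)⟩
  have hfar : ∀ (z : ℝ) (y : Fin 3 → ℝ), y ≠ 0 →
      JoinedIn MM ((![2, 0, z], y) : V) ((2 : ℝ) • e0, y) := by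
    intro z y hy
    refine hseg _ _ y hy fun t _ => Or.inr ?_
    simp [e0]
  have hslab : ∀ (a y : Fin 3 → ℝ), y ≠ 0 → a 2 ≠ 1 → a 2 ≠ 2 →
      JoinedIn MM ((a, y) : V) (![2, 0, a 2], y) := by
    intro a y hy h1 h2
    refine hseg _ _ y hy fun t _ => Or.inl ?_
    have : (a + t • (![2, 0, a 2] - a)) 2 = a 2 := by
      show a 2 + t * (a 2 - a 2) = a 2
      ring
    rw [this]
    exact ⟨h1, h2⟩
  have hB : ∀ (a y : Fin 3 → ℝ), y ≠ 0 → ((a, y) : V) ∈ MM →
      JoinedIn MM ((a, y) : V) ((2 : ℝ) • e0, y) := by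
    intro a y hy h
    rcases ((hmem _).1 h).1 with ⟨h1, h2⟩ | h1
    · exact (hslab a y hy h1 h2).trans (hfar _ y hy)
    · have h2 : JoinedIn MM ((a, y) : V) (![a 0, a 1, 0], y) := by
        refine hseg _ _ y hy fun t _ => Or.inr ?_
        have h3 : (a + t • (![a 0, a 1, 0] - a)) 0 = a 0 := by
          show a 0 + t * (a 0 - a 0) = a 0
          ring
        have h4 : (a + t • (![a 0, a 1, 0] - a)) 1 = a 1 := by
          show a 1 + t * (a 1 - a 1) = a 1
          ring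
        rw [h3, h4]
        exact h1
      refine h2.trans ?_
      have h3 := hslab ![a 0, a 1, 0] y hy (by simp) (by simp)
      exact h3.trans (hfar _ y hy)
  have hvert : ∀ (a y y' : Fin 3 → ℝ), a ≠ 0 → ((a, y) : V) ∈ MM →
      JoinedIn MM ((a, y) : V) (a, y') := by
    intro a y y' ha h
    apply JoinedIn.of_segment_subset
    rw [segment_eq_image']
    rintro _ ⟨t, ht, rfl⟩
    have e : ((a, y) : V) + t • (((a, y') : V) - (a, y)) = (a, y + t • (y' - y)) := by
      refine Prod.ext ?_ rfl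
      simp
    simp only
    rw [e, hmem]
    exact ⟨((hmem _).1 h).1, fun h => ha (congrArg Prod.fst h)⟩
  have he0 : (2 : ℝ) • e0 ≠ 0 := fun h => by
    have := congrFun h 0
    simp [e0] at this
  have hall : ∀ q ∈ MM, JoinedIn MM q ((2 : ℝ) • e0, y₀) := by
    rintro ⟨a, y⟩ hq
    by_cases ha : a = 0
    · have hy : y ≠ 0 := by
        rintro rfl
        rw [ha] at hq
        exact hq.2 rfl
      have h1 := hB a y hy hq
      exact h1.trans (hvert _ y y₀ he0 h1.target_mem)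
    · have h1 := hvert a y y₀ ha hq
      exact h1.trans (hB a y₀ hy₀ h1.target_mem)
  have hp : IsPathConnected MM := ⟨_, hb, fun {q} hq => (hall q hq).symm⟩
  exact hp.isConnected

theorem symplectic_MM : SymplecticOn MM Om where
  isOpen := isOpen_XX.sdiff isClosed_singleton
  smooth := symplectic_Om.smooth.mono sdiff_subset
  alternating x hx := symplectic_Om.alternating x hx.1
  nondegenerate x hx := symplectic_Om.nondegenerate x hx.1
  closed x hx := symplectic_Om.closed x hx.1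

/-! ### Uniform convergence of families -/

section family

variable {E : Type} [NormedAddCommGroup E] [NormedSpace ℝ E]

theorem contDiff_iter (f : ℝ → E → E)
    (hf : ContDiff ℝ ∞ (fun p : ℝ × E => f p.1 p.2)) (k : ℕ) :
    ContDiff ℝ ∞ (fun p : ℝ × E => iteratedFDeriv ℝ k (f p.1) p.2) := by
  induction k with
  | zero =>
    have h : (fun p : ℝ × E => iteratedFDeriv ℝ 0 (f p.1) p.2) =
        fun p => (continuousMultilinearCurryFin0 ℝ E E).symm (f p.1 p.2) := rfl
    rw [h]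
    exact (LinearIsometryEquiv.contDiff _).comp hf
  | succ k ih =>
    have h1 : ContDiff ℝ ∞ (fun p : ℝ × E =>
        fderiv ℝ (fun z => iteratedFDeriv ℝ k (f p.1) z) p.2) := by
      have h2 : ContDiff ℝ ∞ (Function.uncurry
          (fun (p : ℝ × E) (z : E) => iteratedFDeriv ℝ k (f p.1) z)) :=
        ih.comp ((contDiff_fst.comp contDiff_fst).prodMk contDiff_snd)
      exact h2.fderiv contDiff_snd (by simp)
    have h : (fun p : ℝ × E => iteratedFDeriv ℝ (k + 1) (f p.1) p.2) =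
        fun p => (continuousMultilinearCurryLeftEquiv ℝ (fun _ : Fin (k + 1) => E) E).symm
          (fderiv ℝ (fun z => iteratedFDeriv ℝ k (f p.1) z) p.2) := by
      funext p
      rw [iteratedFDeriv_succ_eq_comp_left]
      rfl
    rw [h]
    exact (LinearIsometryEquiv.contDiff _).comp h1

theorem uniform_family {f : ℝ → E → E} (hf : ContDiff ℝ ∞ (fun p : ℝ × E => f p.1 p.2))
    {K : Set E} (hK : IsCompact K) (hfK : ∀ s x, x ∉ K → f s x = x) {a : ℕ → ℝ} {s : ℝ}
    (ha : Tendsto a atTop (𝓝 s)) (k : ℕ) :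
    TendstoUniformly (fun j x => iteratedFDeriv ℝ k (f (a j)) x) (iteratedFDeriv ℝ k (f s))
      atTop := by
  rw [Metric.tendstoUniformly_iff]
  intro ε hε
  have hc := (contDiff_iter f hf k).continuous
  have h1 : ∀ᶠ s' in 𝓝 s, ∀ x ∈ K,
      dist (iteratedFDeriv ℝ k (f s) x) (iteratedFDeriv ℝ k (f s') x) < ε := by
    refine hK.eventually_forall_of_forall_eventually fun x _ => ?_
    have h2 : Continuous (fun z : ℝ × E =>
        dist (iteratedFDeriv ℝ k (f s) z.2) (iteratedFDeriv ℝ k (f z.1) z.2)) := by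
      have h3 : Continuous (fun z : ℝ × E => iteratedFDeriv ℝ k (f s) z.2) :=
        hc.comp (continuous_const.prodMk continuous_snd)
      exact h3.dist hc
    have h4 := h2.tendsto (s, x)
    simp only [dist_self] at h4
    exact h4.eventually (Iio_mem_nhds hε)
  filter_upwards [ha.eventually h1] with j hj x
  by_cases hx : x ∈ K
  · exact hj x hx
  · have h2 : f s =ᶠ[𝓝 x] f (a j) := by
      filter_upwards [hK.isClosed.isOpen_compl.mem_nhds hx] with y hy
      rw [hfK s y hy, hfK (a j) y hy]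
    have h3 := (h2.iteratedFDeriv ℝ k).eq_of_nhds
    rw [h3, dist_self]
    exact hε

end family

/-! ### The flow with flux -/

theorem exists_psi : ∃ (β : V → ℝ) (ψ : ℝ → Equiv.Perm V) (K C : Set V), K ⊆ MM ∧ IsCompact K ∧
    C ⊆ XX ∧ IsCompact C ∧ K ⊆ C ∧ Gen XX Om (fun _ => β) ψ ∧ ContDiff ℝ ∞ β ∧ ψ 0 = 1 ∧
    (∀ s t, ψ (s + t) = ψ s * ψ t) ∧ (∀ t x, x ∉ K → ψ t x = x) ∧ (∀ x, x ∉ C → β x = 0) ∧
    (∀ᶠ x in 𝓝 (0 : V), β x = 1) := by
  have h0 : (0 : V) ∈ XX := Or.inl (by simp)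
  obtain ⟨β, C, hβ, hC, hCX, hβ0, hβ1⟩ := exists_cutoff (isCompact_singleton (x := (0 : V)))
    isOpen_XX (singleton_subset_iff.2 h0)
  have hβ1' : ∀ᶠ x in 𝓝 (0 : V), β x = 1 := eventually_nhdsSet_iff_forall.1 hβ1 0 rfl
  obtain ⟨U, hU, hUo, h0U⟩ := eventually_nhds_iff.1 hβ1'
  have hK : IsCompact (C \ U) := hC.diff hUo
  have hKX : C \ U ⊆ XX := fun x hx => hCX hx.1
  have hd : ∀ x, x ∉ C \ U → fderiv ℝ β x = 0 := by
    intro x hx
    by_cases hxU : x ∈ U
    · have h1 : β =ᶠ[𝓝 x] fun _ => 1 := by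
        filter_upwards [hUo.mem_nhds hxU] with y hy
        exact hU y hy
      rw [h1.fderiv_eq]
      simp
    · have hxC : x ∉ C := fun h => hx ⟨h, hxU⟩
      have h1 : β =ᶠ[𝓝 x] fun _ => 0 := by
        filter_upwards [hC.isClosed.isOpen_compl.mem_nhds hxC] with y hy
        exact hβ0 y hy
      rw [h1.fderiv_eq]
      simp
  obtain ⟨Y, hY, hY0, hYh⟩ := exists_field symplectic_Om hβ hK hKX hd
  obtain ⟨ψ, hψ, hψ0, hψadd, hψK, -⟩ := ham_flow symplectic_Om hY hK hKX hY0 hβ hYh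
  refine ⟨β, ψ, C \ U, C, ?_, hK, hCX, hC, sdiff_subset, hψ, hβ, hψ0, hψadd, hψK, hβ0, hβ1'⟩
  intro x hx
  refine ⟨hCX hx.1, ?_⟩
  rintro rfl
  exact hx.2 h0U

theorem cc_three_halves : cc (3 / 2) = 1 := by
  unfold cc
  rw [if_neg (by norm_num), if_pos (by norm_num)]

theorem cc_three : cc 3 = Real.sqrt 2 := by
  unfold cc
  rw [if_neg (by norm_num), if_neg (by norm_num)]

theorem main : SymplecticOn MM Om ∧ IsConnected MM ∧ ∃ ψ ∈ SympC0 MM Om, ψ ∉ HamC MM Om ∧
    ∃ (K : Set V) (φ : ℕ → Equiv.Perm V), K ⊆ MM ∧ IsCompact K ∧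
      (∀ j, φ j ∈ HamC MM Om ∧ ∀ x, x ∉ K → φ j x = x) ∧
      TendstoUniformly (fun j x => φ j x) ψ atTop ∧
      ∀ k : ℕ, TendstoUniformly (fun j x => iteratedFDeriv ℝ k (φ j) x) (iteratedFDeriv ℝ k ψ)
        atTop := by
  obtain ⟨β, ψ, K, C, hKM, hK, hCX, hC, hKC, hψ, hβ, hψ0, hψadd, hψK, hβC, hβ1⟩ := exists_psi
  refine ⟨symplectic_MM, isConnected_MM, ?_⟩
  have h0K : (0 : V) ∉ K := fun h => (hKM h).2 rfl
  -- the countable set
  have hcount : {s : ℝ | ψ s ∈ HamC MM Om}.Countable := by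
    let q : ℕ → V := fun N => (0, (N : ℝ) • e2)
    let l : ℕ → ℝ → V := fun N r => (0, (r * N) • e2)
    have hq : ∀ A : Set V, IsCompact A → ∀ᶠ N : ℕ in atTop, q N ∉ A := by
      intro A hA
      obtain ⟨R, hR⟩ := hA.isBounded.exists_norm_le
      obtain ⟨N₀, hN₀⟩ := exists_nat_gt R
      filter_upwards [eventually_ge_atTop N₀] with N hN hmem
      have h1 := hR _ hmem
      have h2 : (N : ℝ) ≤ ‖q N‖ := by
        have h3 : ‖(q N).2 2‖ ≤ ‖(q N).2‖ := norm_le_pi_norm _ _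
        have h4 : ‖(q N).2‖ ≤ ‖q N‖ := norm_snd_le _
        have h5 : (q N).2 2 = N := by
          show (N : ℝ) * 1 = N
          ring
        rw [h5] at h3
        exact (le_abs_self _).trans (h3.trans h4)
      have h3 : (N₀ : ℝ) ≤ N := by exact_mod_cast hN
      linarith
    have hsub : {s : ℝ | ψ s ∈ HamC MM Om} ⊆ ⋃ N : ℕ, {s : ℝ | q N ∉ C ∧ ∃ K ⊆ XX \ {0},
        IsCompact K ∧ q N ∉ K ∧ ∃ H Φ, IsHamFlow (XX \ {0}) Om K H Φ ∧ Φ 1 = ψ s} := by
      rintro s ⟨K', hK'M, hK', H, Φ, h1, h2⟩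
      obtain ⟨N, hN1, hN2⟩ := ((hq C hC).and (hq K' hK')).exists
      exact mem_iUnion.2 ⟨N, hN1, K', hK'M, hK', hN2, H, Φ, h1, h2⟩
    refine (countable_iUnion fun N => ?_).mono hsub
    by_cases hN : q N ∈ C
    · have : {s : ℝ | q N ∉ C ∧ ∃ K ⊆ XX \ {0}, IsCompact K ∧ q N ∉ K ∧ ∃ H Φ,
          IsHamFlow (XX \ {0}) Om K H Φ ∧ Φ 1 = ψ s} = ∅ := by
        ext s
        constructor
        · rintro ⟨h1, -⟩
          exact h1 hN
        · intro h
          exact h.elim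
      rw [this]
      exact countable_empty
    · refine (countable_flux (p := 0) (q₁ := q N) symplectic_Om hψ hβ hψ0 hψadd
        (fun t => hψK t 0 h0K) hβ1.self_of_nhds (fun t => hψK t _ fun h => hN (hKC h))
        (hβC _ hN) (l := l N) ?_ ?_ ?_ ?_).mono ?_
      · have h1 : ContDiff ℝ ∞ (fun r : ℝ => (r * (N : ℝ)) • e2) :=
          (contDiff_id.mul contDiff_const).smul contDiff_const
        exact contDiff_const.prodMk h1
      · show ((0 : Fin 3 → ℝ), ((0 : ℝ) * N) • e2) = 0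
        rw [zero_mul, zero_smul]
        rfl
      · show ((0 : Fin 3 → ℝ), ((1 : ℝ) * N) • e2) = _
        rw [one_mul]
      · intro r _
        left
        show (0 : ℝ) ≠ 1 ∧ (0 : ℝ) ≠ 2
        norm_num
      · rintro s ⟨-, h⟩
        exact h
  -- the dense set
  have hmem : ∀ m n : ℤ, ψ (-(2 * Real.pi * m + 2 * Real.pi * n * Real.sqrt 2)) ∈ HamC MM Om := by
    intro m n
    obtain ⟨F₁, Φ₁, hL₁, hΦ₁⟩ := exists_loop (ζ := 3 / 2) (by norm_num) (by norm_num)
      (by norm_num) m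
    obtain ⟨F₂, Φ₂, hL₂, hΦ₂⟩ := exists_loop (ζ := 3) (by norm_num) (by norm_num)
      (by norm_num) n
    rw [cc_three_halves] at hL₁
    rw [cc_three] at hL₂
    set s : ℝ := -(2 * Real.pi * m + 2 * Real.pi * n * Real.sqrt 2) with hs
    have hd : ∀ t, deriv (fun t : ℝ => s * t) t = s := fun t => by simp
    have hτ : ContDiff ℝ ∞ (fun t : ℝ => s * t) := contDiff_const.mul contDiff_id
    have hL₃ : Loop XX Om 0 s (fun t x => deriv (fun t : ℝ => s * t) t * β x)
        (fun t => ψ (s * t)) := by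
      refine ⟨hψ.reparam isOpen_XX hτ, ⟨C, hCX, hC, fun t _ x hx => ⟨?_, ?_⟩⟩, ?_, ?_⟩
      · rw [hβC x hx, mul_zero]
      · exact hψK _ x fun h => hx (hKC h)
      · have h1 : ∀ᶠ x in 𝓝 (0 : V), x ∉ K := hK.isClosed.isOpen_compl.mem_nhds h0K
        filter_upwards [hβ1, h1] with x h2 h3 t _
        refine ⟨?_, hψK _ x h3⟩
        rw [hd, h2, mul_one]
      · simp only [mul_zero]
        exact hψ0
    have h1 := hL₁.comp isOpen_XX (hL₂.comp isOpen_XX hL₃)
    have h2 : 2 * Real.pi * (m : ℝ) * 1 + (2 * Real.pi * n * Real.sqrt 2 + s) = 0 := by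
      rw [hs]
      ring
    rw [h2] at h1
    have h3 := h1.mem_HamC isOpen_XX
    simp only [hΦ₁, hΦ₂, one_mul, mul_one] at h3
    exact h3
  have hdense : Dense (AddSubgroup.closure {2 * Real.pi, 2 * Real.pi * Real.sqrt 2} : Set ℝ) := by
    rw [dense_addSubgroupClosure_pair_iff]
    have h1 : 2 * Real.pi / (2 * Real.pi * Real.sqrt 2) = (Real.sqrt 2)⁻¹ := by
      have := Real.pi_pos
      have h2 : (0 : ℝ) < Real.sqrt 2 := Real.sqrt_pos.2 (by norm_num)
      field_simp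
    rw [h1]
    exact irrational_sqrt_two.inv
  obtain ⟨s, hs⟩ := (hcount.dense_compl ℝ).nonempty
  obtain ⟨a, ha1, ha2⟩ := mem_closure_iff_seq_limit.1 (hdense (-s))
  have hat : Tendsto (fun j => -a j) atTop (𝓝 s) := by
    have := ha2.neg
    rwa [neg_neg] at this
  have hψj : ∀ j, ψ (-a j) ∈ HamC MM Om := by
    intro j
    obtain ⟨m, n, hmn⟩ := AddSubgroup.mem_closure_pair.1 (ha1 j)
    have h1 : a j = 2 * Real.pi * m + 2 * Real.pi * n * Real.sqrt 2 := by
      rw [← hmn, zsmul_eq_mul, zsmul_eq_mul]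
      ring
    rw [h1]
    exact hmem m n
  have hunif := fun k => uniform_family (f := fun s x => ψ s x) hψ.smooth hK hψK hat k
  refine ⟨ψ s, ?_, hs, K, fun j => ψ (-a j), hKM, hK, fun j => ⟨hψj j, hψK _⟩, ?_, hunif⟩
  · refine ⟨K, hKM, hK, fun t => ψ (s * t), ?_, fun t _ => ?_, ?_, ?_⟩
    · have hτ : ContDiff ℝ ∞ (fun t : ℝ => s * t) := contDiff_const.mul contDiff_id
      exact (hψ.reparam isOpen_XX hτ).smooth.contDiffOn
    · exact ⟨hψ.sm _, hψ.sm_symm _, hψK _, fun x hx => hψ.symp _ x hx.1⟩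
    · simp only [mul_zero]
      exact hψ0
    · simp only [mul_one]
  · have h1 := hunif 0
    rw [Metric.tendstoUniformly_iff] at h1 ⊢
    intro ε hε
    filter_upwards [h1 ε hε] with j hj x
    have h2 := hj x
    rw [iteratedFDeriv_zero_eq_comp, iteratedFDeriv_zero_eq_comp] at h2
    simp only [Function.comp_apply, LinearIsometryEquiv.dist_map] at h2
    exact h2

end Q170.CF
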