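import Pool.Agent.Q170.CF.Push

/-!
# The model: a magnetic cotangent bundle
-/

set_option autoImplicit false
set_option maxSynthPendingDepth 3
set_option linter.unusedSectionVars false

open Set Filter Topology
open scoped ContDiff

namespace Q170.CF

/-- `ℝ³ × ℝ³` -/
abbrev V : Type := (Fin 3 → ℝ) × (Fin 3 → ℝ)

/-- cut off function: one for `s ≤ 1/4`, zero for `s ≥ 1/2` -/
noncomputable def Gc (s : ℝ) : ℝ := 1 - Real.smoothTransition (4 * s - 1)

noncomputable def gc (s : ℝ) : ℝ := 2 * deriv Gc s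

theorem contDiff_Gc : ContDiff ℝ ∞ Gc :=
  contDiff_const.sub (Real.smoothTransition.contDiff.comp
    ((contDiff_const.mul contDiff_id).sub contDiff_const))

theorem contDiff_gc : ContDiff ℝ ∞ gc := contDiff_const.mul contDiff_Gc.deriv'

theorem Gc_of_le {s : ℝ} (h : s ≤ 1 / 4) : Gc s = 1 := by
  unfold Gc
  rw [Real.smoothTransition.zero_of_nonpos (by linarith), sub_zero]

theorem Gc_of_ge {s : ℝ} (h : 1 / 2 ≤ s) : Gc s = 0 := by
  unfold Gc
  rw [Real.smoothTransition.one_of_one_le (by linarith), sub_self]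

theorem gc_of_lt {s : ℝ} (h : s < 1 / 4) : gc s = 0 := by
  have h1 : Gc =ᶠ[𝓝 s] fun _ => 1 := by
    filter_upwards [Iio_mem_nhds h] with y hy
    exact Gc_of_le (le_of_lt hy)
  unfold gc
  rw [h1.deriv_eq, deriv_const, mul_zero]

theorem gc_of_gt {s : ℝ} (h : 1 / 2 < s) : gc s = 0 := by
  have h1 : Gc =ᶠ[𝓝 s] fun _ => 0 := by
    filter_upwards [Ioi_mem_nhds h] with y hy
    exact Gc_of_ge (le_of_lt hy)
  unfold gc
  rw [h1.deriv_eq, deriv_const, mul_zero]

/-- the strength of the magnetic field -/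
noncomputable def cc (z : ℝ) : ℝ := if z < 1 then 0 else if z < 2 then 1 else Real.sqrt 2

/-- the squared distance from the axis -/
def Rq (q : V) : ℝ := q.1 0 ^ 2 + q.1 1 ^ 2

theorem contDiff_Rq : ContDiff ℝ ∞ Rq := by
  unfold Rq
  fun_prop

noncomputable def kap (q : V) : ℝ := cc (q.1 2) * gc (Rq q)

/-- the big manifold -/
def XX : Set V := {q | (q.1 2 ≠ 1 ∧ q.1 2 ≠ 2) ∨ 1 < Rq q}

theorem continuous_Rq : Continuous Rq := contDiff_Rq.continuous

theorem isOpen_XX : IsOpen XX := by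
  have h1 : Continuous (fun q : V => q.1 2) := by fun_prop
  exact ((isOpen_ne_fun h1 continuous_const).inter (isOpen_ne_fun h1 continuous_const)).union
    (isOpen_lt continuous_const continuous_Rq)

theorem cc_ev {z : ℝ} (h1 : z ≠ 1) (h2 : z ≠ 2) : ∀ᶠ y in 𝓝 z, cc y = cc z := by
  rcases lt_or_gt_of_ne h1 with h | h
  · filter_upwards [Iio_mem_nhds h] with y hy
    have hy' : y < 1 := hy
    unfold cc
    rw [if_pos hy', if_pos h]
  · rcases lt_or_gt_of_ne h2 with h' | h'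
    · filter_upwards [Ioo_mem_nhds h h'] with y hy
      unfold cc
      rw [if_neg (not_lt.2 hy.1.le), if_neg (not_lt.2 h.le), if_pos hy.2, if_pos h']
    · filter_upwards [Ioi_mem_nhds h'] with y hy
      have hy' : (2 : ℝ) < y := hy
      unfold cc
      rw [if_neg (by linarith), if_neg (by linarith), if_neg (by linarith), if_neg (by linarith)]

theorem model_ev {q : V} (hq : q ∈ XX) : ∃ c₀ : ℝ, ∀ᶠ y in 𝓝 q,
    cc (y.1 2) * gc (Rq y) = c₀ * gc (Rq y) ∧ cc (y.1 2) * Gc (Rq y) = c₀ * Gc (Rq y) := by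
  rcases hq with ⟨h1, h2⟩ | h
  · refine ⟨cc (q.1 2), ?_⟩
    have h3 : Continuous (fun q : V => q.1 2) := by fun_prop
    have h4 := h3.continuousAt.eventually (cc_ev h1 h2)
    filter_upwards [h4] with y hy
    rw [hy]
    exact ⟨rfl, rfl⟩
  · refine ⟨0, ?_⟩
    filter_upwards [(isOpen_lt continuous_const continuous_Rq).mem_nhds h] with y hy
    have hy' : 1 < Rq y := hy
    rw [gc_of_gt (by linarith), Gc_of_ge (by linarith)]
    simp

/-- the wedge of two linear functionals -/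
noncomputable def wedge (l m : V →L[ℝ] ℝ) : V →L[ℝ] V →L[ℝ] ℝ :=
  l.smulRight m - m.smulRight l

theorem wedge_apply (l m : V →L[ℝ] ℝ) (u v : V) : wedge l m u v = l u * m v - m u * l v := by
  unfold wedge
  simp

noncomputable def cx (i : Fin 3) : V →L[ℝ] ℝ :=
  (ContinuousLinearMap.proj i).comp (ContinuousLinearMap.fst ℝ (Fin 3 → ℝ) (Fin 3 → ℝ))

noncomputable def cy (i : Fin 3) : V →L[ℝ] ℝ :=
  (ContinuousLinearMap.proj i).comp (ContinuousLinearMap.snd ℝ (Fin 3 → ℝ) (Fin 3 → ℝ))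

theorem cx_apply (i : Fin 3) (u : V) : cx i u = u.1 i := rfl
theorem cy_apply (i : Fin 3) (u : V) : cy i u = u.2 i := rfl

/-- the symplectic form -/
noncomputable def Om (q : V) : V →L[ℝ] V →L[ℝ] ℝ :=
  (wedge (cx 0) (cy 0) + wedge (cx 1) (cy 1) + wedge (cx 2) (cy 2)) +
    kap q • wedge (cx 0) (cx 1)

theorem Om_apply (q u v : V) : Om q u v =
    (u.1 0 * v.2 0 - u.2 0 * v.1 0) + (u.1 1 * v.2 1 - u.2 1 * v.1 1) +
      (u.1 2 * v.2 2 - u.2 2 * v.1 2) + kap q * (u.1 0 * v.1 1 - u.1 1 * v.1 0) := by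
  unfold Om
  simp only [add_apply, smul_apply, wedge_apply, cx_apply, cy_apply, smul_eq_mul]

theorem Rq_deriv (q : V) : HasFDerivAt Rq ((2 * q.1 0) • cx 0 + (2 * q.1 1) • cx 1) q := by
  have h0 : HasFDerivAt (fun q : V => q.1 0) (cx 0) q := (cx 0).hasFDerivAt
  have h1 : HasFDerivAt (fun q : V => q.1 1) (cx 1) q := (cx 1).hasFDerivAt
  have h2 := (h0.pow 2).add (h1.pow 2)
  refine h2.congr_fderiv ?_
  ext u <;> simp

theorem symplectic_Om : SymplecticOn XX Om where
  isOpen := isOpen_XX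
  smooth := by
    intro q hq
    obtain ⟨c₀, hc⟩ := model_ev hq
    have h1 : ContDiff ℝ ∞ (fun y : V =>
        (wedge (cx 0) (cy 0) + wedge (cx 1) (cy 1) + wedge (cx 2) (cy 2)) +
          (c₀ * gc (Rq y)) • wedge (cx 0) (cx 1)) :=
      contDiff_const.add ((contDiff_const.mul (contDiff_gc.comp contDiff_Rq)).smul contDiff_const)
    refine (h1.contDiffAt.congr_of_eventuallyEq ?_).contDiffWithinAt
    filter_upwards [hc] with y hy
    unfold Om kap
    rw [hy.1]
  alternating q _ v := by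
    rw [Om_apply]
    ring
  nondegenerate q _ v h := by
    have a0 := h (0, Pi.single 0 1)
    have a1 := h (0, Pi.single 1 1)
    have a2 := h (0, Pi.single 2 1)
    have b0 := h (Pi.single 0 1, 0)
    have b1 := h (Pi.single 1 1, 0)
    have b2 := h (Pi.single 2 1, 0)
    simp [Om_apply] at a0 a1 a2 b0 b1 b2
    rw [a1] at b0
    rw [a0] at b1
    simp at b0 b1
    refine Prod.ext (funext fun i => ?_) (funext fun i => ?_)
    · fin_cases i
      · exact a0
      · exact a1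
      · exact a2
    · fin_cases i
      · exact b0
      · exact b1
      · exact b2
  closed q hq u v w := by
    obtain ⟨c₀, hc⟩ := model_ev hq
    have h1 : HasFDerivAt (fun y : V => c₀ * gc (Rq y))
        (c₀ • (deriv gc (Rq q) • ((2 * q.1 0) • cx 0 + (2 * q.1 1) • cx 1))) q := by
      have h2 : HasDerivAt gc (deriv gc (Rq q)) (Rq q) :=
        ((contDiff_gc.differentiable (by simp)) _).hasDerivAt
      have h3 := (h2.comp_hasFDerivAt q (Rq_deriv q)).const_mul c₀
      exact h3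
    have h2 : HasFDerivAt (fun y : V =>
        (wedge (cx 0) (cy 0) + wedge (cx 1) (cy 1) + wedge (cx 2) (cy 2)) +
          (c₀ * gc (Rq y)) • wedge (cx 0) (cx 1))
        ((c₀ • (deriv gc (Rq q) • ((2 * q.1 0) • cx 0 + (2 * q.1 1) • cx 1))).smulRight
          (wedge (cx 0) (cx 1))) q :=
      (h1.smul_const (wedge (cx 0) (cx 1))).const_add _
    have h3 : Om =ᶠ[𝓝 q] (fun y : V =>
        (wedge (cx 0) (cy 0) + wedge (cx 1) (cy 1) + wedge (cx 2) (cy 2)) +
          (c₀ * gc (Rq y)) • wedge (cx 0) (cx 1)) := by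
      filter_upwards [hc] with y hy
      unfold Om kap
      rw [hy.1]
    rw [h3.fderiv_eq, h2.fderiv]
    simp only [ContinuousLinearMap.smulRight_apply, smul_apply, add_apply, wedge_apply, cx_apply,
      smul_eq_mul]
    ring

/-! ### The rotation -/

noncomputable def rotC (t : ℝ) : (Fin 3 → ℝ) →L[ℝ] (Fin 3 → ℝ) :=
  ContinuousLinearMap.pi ![
    Real.cos (2 * Real.pi * t) • ContinuousLinearMap.proj 0 -
      Real.sin (2 * Real.pi * t) • ContinuousLinearMap.proj 1,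
    Real.sin (2 * Real.pi * t) • ContinuousLinearMap.proj 0 +
      Real.cos (2 * Real.pi * t) • ContinuousLinearMap.proj 1,
    ContinuousLinearMap.proj 2]

theorem rotC_0 (t : ℝ) (a : Fin 3 → ℝ) : rotC t a 0 =
    Real.cos (2 * Real.pi * t) * a 0 - Real.sin (2 * Real.pi * t) * a 1 := rfl

theorem rotC_1 (t : ℝ) (a : Fin 3 → ℝ) : rotC t a 1 =
    Real.sin (2 * Real.pi * t) * a 0 + Real.cos (2 * Real.pi * t) * a 1 := rfl

theorem rotC_2 (t : ℝ) (a : Fin 3 → ℝ) : rotC t a 2 = a 2 := rfl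

theorem rotC_inv (t : ℝ) (a : Fin 3 → ℝ) : rotC (-t) (rotC t a) = a := by
  have h := Real.sin_sq_add_cos_sq (2 * Real.pi * t)
  have e : 2 * Real.pi * -t = -(2 * Real.pi * t) := by ring
  funext i
  fin_cases i
  · show rotC (-t) (rotC t a) 0 = a 0
    rw [rotC_0, rotC_0, rotC_1, e, Real.cos_neg, Real.sin_neg]
    linear_combination (a 0) * h
  · show rotC (-t) (rotC t a) 1 = a 1
    rw [rotC_1, rotC_0, rotC_1, e, Real.cos_neg, Real.sin_neg]
    linear_combination (a 1) * h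
  · rfl

noncomputable def rotL (t : ℝ) : V →L[ℝ] V := (rotC t).prodMap (rotC t)

theorem rotL_apply (t : ℝ) (q : V) : rotL t q = (rotC t q.1, rotC t q.2) := rfl

noncomputable def rot (t : ℝ) : Equiv.Perm V where
  toFun := rotL t
  invFun := rotL (-t)
  left_inv q := by
    rw [rotL_apply, rotL_apply, rotC_inv, rotC_inv]
  right_inv q := by
    have h : ∀ a, rotC t (rotC (-t) a) = a := fun a => by
      have := rotC_inv (-t) a
      rwa [neg_neg] at this
    rw [rotL_apply, rotL_apply, h, h]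

theorem rot_apply (t : ℝ) (q : V) : rot t q = (rotC t q.1, rotC t q.2) := rfl

theorem rot_symm_apply (t : ℝ) (q : V) : (rot t).symm q = rot (-t) q := rfl

theorem contDiff_rotC : ContDiff ℝ ∞ (fun p : ℝ × (Fin 3 → ℝ) => rotC p.1 p.2) := by
  refine contDiff_pi.2 fun i => ?_
  have h1 : ContDiff ℝ ∞ (fun p : ℝ × (Fin 3 → ℝ) => Real.cos (2 * Real.pi * p.1)) :=
    Real.contDiff_cos.comp (contDiff_const.mul contDiff_fst)
  have h2 : ContDiff ℝ ∞ (fun p : ℝ × (Fin 3 → ℝ) => Real.sin (2 * Real.pi * p.1)) :=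
    Real.contDiff_sin.comp (contDiff_const.mul contDiff_fst)
  have h3 : ∀ j : Fin 3, ContDiff ℝ ∞ (fun p : ℝ × (Fin 3 → ℝ) => p.2 j) := fun j =>
    (contDiff_apply ℝ ℝ j).comp contDiff_snd
  fin_cases i
  · exact (h1.mul (h3 0)).sub (h2.mul (h3 1))
  · exact (h2.mul (h3 0)).add (h1.mul (h3 1))
  · exact h3 2

theorem contDiff_rot1 : ContDiff ℝ ∞ (fun p : ℝ × V => rotC p.1 p.2.1) := by
  have a1 : ContDiff ℝ ∞ (fun p : ℝ × V => (p.1, p.2.1)) :=
    contDiff_fst.prodMk (contDiff_fst.comp contDiff_snd)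
  have := ContDiff.comp (g := fun p : ℝ × (Fin 3 → ℝ) => rotC p.1 p.2) contDiff_rotC a1
  simp only [Function.comp_def] at this
  exact this

theorem contDiff_rot2 : ContDiff ℝ ∞ (fun p : ℝ × V => rotC p.1 p.2.2) := by
  have a1 : ContDiff ℝ ∞ (fun p : ℝ × V => (p.1, p.2.2)) :=
    contDiff_fst.prodMk (contDiff_snd.comp contDiff_snd)
  have := ContDiff.comp (g := fun p : ℝ × (Fin 3 → ℝ) => rotC p.1 p.2) contDiff_rotC a1
  simp only [Function.comp_def] at this
  exact this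

theorem contDiff_rot : ContDiff ℝ ∞ (fun p : ℝ × V => rot p.1 p.2) := by
  have h : (fun p : ℝ × V => rot p.1 p.2) =
      fun p : ℝ × V => (rotC p.1 p.2.1, rotC p.1 p.2.2) := by
    funext p
    exact rot_apply _ _
  rw [h]
  exact contDiff_rot1.prodMk contDiff_rot2

theorem contDiff_rot_symm : ContDiff ℝ ∞ (fun p : ℝ × V => (rot p.1).symm p.2) := by
  have a1 : ContDiff ℝ ∞ (fun p : ℝ × V => (-p.1, p.2)) := contDiff_fst.neg.prodMk contDiff_snd
  have h : (fun p : ℝ × V => (rot p.1).symm p.2) = fun p : ℝ × V => rot (-p.1) p.2 := by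
    funext p
    exact rot_symm_apply _ _
  rw [h]
  have := ContDiff.comp (g := fun p : ℝ × V => rot p.1 p.2) contDiff_rot a1
  simp only [Function.comp_def] at this
  exact this

theorem Rq_rot (t : ℝ) (q : V) : Rq (rot t q) = Rq q := by
  have h := Real.sin_sq_add_cos_sq (2 * Real.pi * t)
  unfold Rq
  rw [rot_apply]
  simp only
  rw [rotC_0, rotC_1]
  linear_combination (q.1 0 ^ 2 + q.1 1 ^ 2) * h

theorem kap_rot (t : ℝ) (q : V) : kap (rot t q) = kap q := by
  unfold kap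
  rw [Rq_rot]
  rfl

theorem rot_mem (t : ℝ) (q : V) : rot t q ∈ XX ↔ q ∈ XX := by
  unfold XX
  rw [mem_ofPred_eq, mem_ofPred_eq, Rq_rot]
  rfl

/-- the Hamiltonian of the rotation -/
noncomputable def Hm (q : V) : ℝ :=
  2 * Real.pi * (q.1 0 * q.2 1 - q.1 1 * q.2 0 - cc (q.1 2) * Gc (Rq q))

theorem Hm_rot (t : ℝ) (q : V) : Hm (rot t q) = Hm q := by
  have h := Real.sin_sq_add_cos_sq (2 * Real.pi * t)
  unfold Hm
  rw [Rq_rot]
  have e1 : (rot t q).1 0 * (rot t q).2 1 - (rot t q).1 1 * (rot t q).2 0 =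
      q.1 0 * q.2 1 - q.1 1 * q.2 0 := by
    rw [rot_apply]
    simp only
    rw [rotC_0, rotC_1, rotC_0, rotC_1]
    linear_combination (q.1 0 * q.2 1 - q.1 1 * q.2 0) * h
  rw [e1]
  rfl

theorem Hm_loc {q : V} (hq : q ∈ XX) : ∃ c₀ : ℝ, (∀ᶠ y in 𝓝 q, Hm y =
    2 * Real.pi * (y.1 0 * y.2 1 - y.1 1 * y.2 0 - c₀ * Gc (Rq y))) ∧ kap q = c₀ * gc (Rq q) := by
  obtain ⟨c₀, hc⟩ := model_ev hq
  refine ⟨c₀, ?_, hc.self_of_nhds.1⟩
  filter_upwards [hc] with y hy
  unfold Hm
  rw [hy.2]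

theorem contDiffOn_Hm : ContDiffOn ℝ ∞ Hm XX := by
  intro q hq
  obtain ⟨c₀, hc, -⟩ := Hm_loc hq
  have h1 : ContDiff ℝ ∞ (fun y : V =>
      2 * Real.pi * (y.1 0 * y.2 1 - y.1 1 * y.2 0 - c₀ * Gc (Rq y))) := by
    have h2 : ContDiff ℝ ∞ (fun y : V => Gc (Rq y)) := contDiff_Gc.comp contDiff_Rq
    fun_prop
  exact (h1.contDiffAt.congr_of_eventuallyEq hc).contDiffWithinAt

/-- the velocity field of the rotation -/
noncomputable def rotV (q : V) : V :=
  (2 * Real.pi) • ((![-(q.1 1), q.1 0, 0] : Fin 3 → ℝ), (![-(q.2 1), q.2 0, 0] : Fin 3 → ℝ))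

theorem rotC_deriv (a : Fin 3 → ℝ) (t : ℝ) : HasDerivAt (fun s => rotC s a)
    ((2 * Real.pi) • ![-(rotC t a 1), rotC t a 0, 0]) t := by
  have h0 : HasDerivAt (fun s => 2 * Real.pi * s) (2 * Real.pi) t := by
    simpa using (hasDerivAt_id t).const_mul (2 * Real.pi)
  have h1 : HasDerivAt (fun s => Real.cos (2 * Real.pi * s))
      (-Real.sin (2 * Real.pi * t) * (2 * Real.pi)) t := h0.cos
  have h2 : HasDerivAt (fun s => Real.sin (2 * Real.pi * s))
      (Real.cos (2 * Real.pi * t) * (2 * Real.pi)) t := h0.sin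
  rw [hasDerivAt_pi]
  intro i
  fin_cases i
  · have h3 := (h1.mul_const (a 0)).sub (h2.mul_const (a 1))
    refine h3.congr_deriv ?_
    simp [rotC_0, rotC_1]
    ring
  · have h3 := (h2.mul_const (a 0)).add (h1.mul_const (a 1))
    refine h3.congr_deriv ?_
    simp [rotC_0, rotC_1]
    ring
  · have h3 := hasDerivAt_const t (a 2)
    refine h3.congr_deriv ?_
    simp

theorem rot_deriv (q : V) (t : ℝ) : HasDerivAt (fun s => rot s q) (rotV (rot t q)) t :=
  (rotC_deriv q.1 t).prodMk (rotC_deriv q.2 t)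

theorem Hm_fderiv {q : V} (hq : q ∈ XX) (w : V) : Om q (rotV q) w = fderiv ℝ Hm q w := by
  obtain ⟨c₀, hc, hk⟩ := Hm_loc hq
  have hG : HasFDerivAt (fun y : V => Gc (Rq y))
      (deriv Gc (Rq q) • ((2 * q.1 0) • cx 0 + (2 * q.1 1) • cx 1)) q :=
    ((contDiff_Gc.differentiable (by simp)) _).hasDerivAt.comp_hasFDerivAt q (Rq_deriv q)
  have h0 : HasFDerivAt (fun q : V => q.1 0) (cx 0) q := (cx 0).hasFDerivAt
  have h1 : HasFDerivAt (fun q : V => q.1 1) (cx 1) q := (cx 1).hasFDerivAt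
  have h2 : HasFDerivAt (fun q : V => q.2 0) (cy 0) q := (cy 0).hasFDerivAt
  have h3 : HasFDerivAt (fun q : V => q.2 1) (cy 1) q := (cy 1).hasFDerivAt
  have h4 := (((h0.mul h3).sub (h1.mul h2)).sub (hG.const_mul c₀)).const_mul (2 * Real.pi)
  have h5 : Hm =ᶠ[𝓝 q] _ := hc
  rw [(h4.congr_of_eventuallyEq h5).fderiv]
  rw [Om_apply, hk]
  unfold gc rotV
  simp [cx_apply, cy_apply]
  ring

theorem gen_rot : Gen XX Om (fun _ => Hm) rot where
  smooth := contDiff_rot
  smooth_symm := contDiff_rot_symm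
  maps t x := rot_mem t x
  symp t x _ v w := by
    have h : ∀ u, fderiv ℝ (rot t) x u = rot t u := by
      intro u
      have h1 : fderiv ℝ (rotL t) x = rotL t := (rotL t).fderiv
      show fderiv ℝ (rotL t) x u = rotL t u
      rw [h1]
    have hs := Real.sin_sq_add_cos_sq (2 * Real.pi * t)
    rw [h, h, Om_apply, Om_apply, kap_rot]
    rw [rot_apply, rot_apply]
    simp only
    rw [rotC_0, rotC_1, rotC_2, rotC_0, rotC_1, rotC_2, rotC_0, rotC_1, rotC_2,
      rotC_0, rotC_1, rotC_2]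
    linear_combination ((v.1 0 * w.2 0 - v.2 0 * w.1 0) + (v.1 1 * w.2 1 - v.2 1 * w.1 1) +
      kap x * (v.1 0 * w.1 1 - v.1 1 * w.1 0)) * hs
  smoothF := contDiffOn_Hm.comp contDiff_snd.contDiffOn (fun p hp => hp.2)
  ode t x hx w := by
    rw [(rot_deriv x t).deriv]
    exact Hm_fderiv ((rot_mem t x).2 hx) w

theorem rot_int (m : ℤ) (q : V) : rot m q = q := by
  have h1 : Real.cos (2 * Real.pi * m) = 1 := by
    rw [mul_comm]
    exact Real.cos_int_mul_two_pi m
  have h2 : Real.sin (2 * Real.pi * m) = 0 := by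
    have := Real.sin_int_mul_pi (2 * m)
    push_cast at this
    rw [← this]
    congr 1
    ring
  have h3 : ∀ a : Fin 3 → ℝ, rotC m a = a := by
    intro a
    funext i
    fin_cases i
    · show rotC m a 0 = a 0
      rw [rotC_0, h1, h2]
      ring
    · show rotC m a 1 = a 1
      rw [rotC_1, h1, h2]
      ring
    · rfl
  rw [rot_apply, h3, h3]

theorem rot_zero : rot 0 = 1 := by
  ext1 q
  have := rot_int 0 q
  simpa using this

theorem rot_inv_apply (t : ℝ) (q : V) : rot t (rot (-t) q) = q := (rot t).apply_symm_apply q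

end Q170.CF
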