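import Pool.Agent.Q170.CF.Gen

/-!
# Cutting off Hamiltonian flows
-/

set_option autoImplicit false
set_option maxSynthPendingDepth 3
set_option linter.unusedSectionVars false

open Set Filter Topology
open scoped ContDiff

namespace Q170.CF

variable {E : Type} [NormedAddCommGroup E] [NormedSpace ℝ E] [FiniteDimensional ℝ E]

theorem perm_maps {X K : Set E} {φ : Equiv.Perm E} (hKX : K ⊆ X) (h : ∀ x, x ∉ K → φ x = x)
    (x : E) : φ x ∈ X ↔ x ∈ X := by
  constructor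
  · intro h'
    by_contra hx
    rw [h x (fun h' => hx (hKX h'))] at h'
    exact hx h'
  · intro h'
    by_contra hx
    have h1 := h (φ x) (fun h' => hx (hKX h'))
    rw [φ.injective h1] at hx
    exact hx h'

theorem symm_fix {K : Set E} {φ : Equiv.Perm E} (h : ∀ x, x ∉ K → φ x = x) (x : E) (hx : x ∉ K) :
    φ.symm x = x := by
  rw [Equiv.symm_apply_eq]
  exact (h x hx).symm

/-- symplectomorphisms of `(X, Ω)` with compact support -/
def SympC (X : Set E) (Ω : E → E →L[ℝ] E →L[ℝ] ℝ) (φ : Equiv.Perm E) : Prop :=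
  ∃ K ⊆ X, IsCompact K ∧ IsSympSupp X Ω K φ

theorem SympC.mul {X : Set E} {Ω : E → E →L[ℝ] E →L[ℝ] ℝ} {φ ψ : Equiv.Perm E}
    (h : SympC X Ω φ) (h' : SympC X Ω ψ) : SympC X Ω (φ * ψ) := by
  obtain ⟨K, hK, hKc, h1⟩ := h
  obtain ⟨K', hK', hKc', h2⟩ := h'
  refine ⟨K ∪ K', union_subset hK hK', hKc.union hKc', ?_, ?_, ?_, ?_⟩
  · exact h1.smooth.comp h2.smooth
  · exact h2.smooth_symm.comp h1.smooth_symm
  · intro x hx
    rw [mem_union, not_or] at hx
    show φ (ψ x) = x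
    rw [h2.support x hx.2, h1.support x hx.1]
  · intro x hx v w
    have h3 : HasFDerivAt (φ * ψ : Equiv.Perm E) ((fderiv ℝ φ (ψ x)).comp (fderiv ℝ ψ x)) x :=
      HasFDerivAt.comp (g := φ) (f := ψ) x ((h1.smooth.differentiable (by simp)) _).hasFDerivAt
        ((h2.smooth.differentiable (by simp)) _).hasFDerivAt
    rw [h3.fderiv]
    show Ω (φ (ψ x)) (fderiv ℝ φ (ψ x) (fderiv ℝ ψ x v)) (fderiv ℝ φ (ψ x) (fderiv ℝ ψ x w)) = _
    rw [h1.symplectic _ ((perm_maps hK' h2.support x).2 hx), h2.symplectic x hx]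

theorem SympC.inv {X : Set E} {Ω : E → E →L[ℝ] E →L[ℝ] ℝ} {φ : Equiv.Perm E}
    (h : SympC X Ω φ) : SympC X Ω φ.symm := by
  obtain ⟨K, hK, hKc, h1⟩ := h
  exact ⟨K, hK, hKc, h1.smooth_symm, h1.smooth, fun x hx => symm_fix h1.support x hx,
    (symp_symm h1.smooth h1.smooth_symm (perm_maps hK h1.support) h1.symplectic).2⟩

/-- The Hamiltonian vector field of a compactly supported function. -/
theorem exists_field {X : Set E} {Ω : E → E →L[ℝ] E →L[ℝ] ℝ} (hΩ : SymplecticOn X Ω)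
    {F : E → ℝ} (hF : ContDiff ℝ ∞ F) {K : Set E} (hK : IsCompact K) (hKX : K ⊆ X)
    (hF0 : ∀ x, x ∉ K → fderiv ℝ F x = 0) :
    ∃ Y : E → E, ContDiff ℝ ∞ Y ∧ (∀ x, x ∉ K → Y x = 0) ∧
      ∀ x ∈ X, ∀ w, Ω x (Y x) w = fderiv ℝ F x w := by
  classical
  have hinj : ∀ x ∈ X, Function.Injective (Ω x) := by
    intro x hx
    rw [injective_iff_map_eq_zero]
    intro v hv
    exact hΩ.nondegenerate x hx v fun w => by rw [hv]; rfl
  have hrank : Module.finrank ℝ E = Module.finrank ℝ (E →L[ℝ] ℝ) := by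
    have h1 : Module.finrank ℝ (E →L[ℝ] ℝ) = Module.finrank ℝ (E →ₗ[ℝ] ℝ) :=
      (LinearMap.toContinuousLinearMap (𝕜 := ℝ) (E := E) (F' := ℝ)).finrank_eq.symm
    rw [h1]
    exact (Subspace.dual_finrank_eq (K := ℝ) (V := E)).symm
  have hequiv : ∀ x ∈ X, ∃ e : E ≃L[ℝ] (E →L[ℝ] ℝ), (e : E →L[ℝ] (E →L[ℝ] ℝ)) = Ω x := by
    intro x hx
    refine ⟨ContinuousLinearEquiv.ofBijective (Ω x) ?_ ?_, ?_⟩
    · exact LinearMap.ker_eq_bot.2 (hinj x hx)
    · exact LinearMap.range_eq_top.2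
        ((LinearMap.injective_iff_surjective_of_finrank_eq_finrank hrank).1 (hinj x hx))
    · ext v w
      rfl
  let Y : E → E := fun x => if x ∈ X then (Ω x).inverse (fderiv ℝ F x) else 0
  have hY0 : ∀ x, x ∉ K → Y x = 0 := by
    intro x hx
    show (if x ∈ X then (Ω x).inverse (fderiv ℝ F x) else 0) = 0
    rw [hF0 x hx]
    simp
  refine ⟨Y, ?_, hY0, ?_⟩
  · refine contDiff_of_support hK hΩ.isOpen hKX ?_ hY0
    intro x hx
    have hev : Y =ᶠ[𝓝 x] fun y => (Ω y).inverse (fderiv ℝ F y) := by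
      filter_upwards [hΩ.isOpen.mem_nhds hx] with y hy
      exact if_pos hy
    obtain ⟨e, he⟩ := hequiv x hx
    have h1 : ContDiffAt ℝ ∞ (fun y => (Ω y).inverse) x := by
      have h2 := contDiffAt_map_inverse (𝕜 := ℝ) (n := ∞) e
      rw [he] at h2
      exact h2.comp x ((hΩ.smooth x hx).contDiffAt (hΩ.isOpen.mem_nhds hx))
    exact ((h1.clm_apply (hF.fderiv_right (by simp)).contDiffAt).congr_of_eventuallyEq
      hev).contDiffWithinAt
  · intro x hx w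
    have h1 : Y x = (Ω x).inverse (fderiv ℝ F x) := if_pos hx
    obtain ⟨e, he⟩ := hequiv x hx
    rw [h1, ← he, ContinuousLinearMap.inverse_equiv]
    simp

/-- Moving a neighbourhood of a point along the flow of a Hamiltonian, by a symplectomorphism of
compact support. -/
theorem push {X : Set E} {Ω : E → E →L[ℝ] E →L[ℝ] ℝ} (hΩ : SymplecticOn X Ω)
    {F : E → ℝ} (hF : ContDiff ℝ ∞ F) {γ : ℝ → E → E}
    (hγ : Continuous (fun p : ℝ × E => γ p.1 p.2)) {T : ℝ} (hT : 0 ≤ T) {q₀ : E}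
    (hX : ∀ t ∈ Icc (0 : ℝ) T, γ t q₀ ∈ X)
    (hode : ∀ᶠ q in 𝓝 q₀, ∀ t ∈ Icc (0 : ℝ) T, ∃ v, HasDerivAt (fun s => γ s q) v t ∧
      ∀ w, Ω (γ t q) v w = fderiv ℝ F (γ t q) w)
    (h0 : ∀ᶠ q in 𝓝 q₀, γ 0 q = q) :
    ∃ φ : Equiv.Perm E, SympC X Ω φ ∧ ∀ᶠ q in 𝓝 q₀, φ q = γ T q := by
  have hγt : Continuous (fun t => γ t q₀) := hγ.comp (continuous_id.prodMk continuous_const)
  have hC : IsCompact ((fun t => γ t q₀) '' Icc (0 : ℝ) T) := isCompact_Icc.image hγt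
  obtain ⟨χ, K, hχ, hK, hKX, hχ0, hχ1⟩ := exists_cutoff hC hΩ.isOpen (by
    rintro _ ⟨t, ht, rfl⟩
    exact hX t ht)
  have hFχ : ContDiff ℝ ∞ (fun x => χ x * F x) := hχ.mul hF
  have hsupp : ∀ x, x ∉ K → fderiv ℝ (fun x => χ x * F x) x = 0 := by
    intro x hx
    have h1 : (fun x => χ x * F x) =ᶠ[𝓝 x] fun _ => 0 := by
      filter_upwards [hK.isClosed.isOpen_compl.mem_nhds hx] with y hy
      rw [hχ0 y hy, zero_mul]
    rw [h1.fderiv_eq]
    simp
  obtain ⟨Y, hY, hY0, hYh⟩ := exists_field hΩ hFχ hK hKX hsupp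
  obtain ⟨Φ, hΦ, hΦ0, -, hΦfix, hΦode⟩ := ham_flow hΩ hY hK hKX hY0 hFχ hYh
  obtain ⟨L, hL⟩ := hY.lipschitzWith_of_hasCompactSupport (HasCompactSupport.intro hK hY0)
    (by simp)
  refine ⟨Φ T, ⟨K, hKX, hK, hΦ.sm T, hΦ.sm_symm T, hΦfix T, fun x hx => hΦ.symp T x hx⟩, ?_⟩
  -- the set where the cut off is one
  have hev : ∀ᶠ q in 𝓝 q₀, ∀ t ∈ Icc (0 : ℝ) T,
      (∀ᶠ y in 𝓝 (γ t q), χ y = 1) ∧ γ t q ∈ X := by
    refine isCompact_Icc.eventually_forall_of_forall_eventually fun t ht => ?_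
    have h1 : ∀ᶠ x in 𝓝 (γ t q₀), χ x = 1 := (eventually_nhdsSet_iff_forall.1 hχ1) _
      (mem_image_of_mem _ ht)
    have h2 : ∀ᶠ x in 𝓝 (γ t q₀), (∀ᶠ y in 𝓝 x, χ y = 1) ∧ x ∈ X :=
      (eventually_eventually_nhds.2 h1).and (hΩ.isOpen.mem_nhds (hX t ht))
    have h3 : Tendsto (fun z : E × ℝ => γ z.2 z.1) (𝓝 (q₀, t)) (𝓝 (γ t q₀)) :=
      (hγ.comp (continuous_snd.prodMk continuous_fst)).tendsto (q₀, t)
    exact h3.eventually h2
  filter_upwards [hev, hode, h0] with q hq1 hq2 hq3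
  choose! v hv1 hv2 using hq2
  have key := Pool.Agent.H864R3.zero_fwd (D := fun t => Φ t q - γ t q)
    (D' := fun t => Y (Φ t q) - Y (γ t q)) (a := 0) (b := T) (L := L)
    (fun t ht => by
      have h1 : v t = Y (γ t q) := by
        obtain ⟨e1, e2⟩ := hq1 t ht
        have h2 : ∀ w, Ω (γ t q) (v t - Y (γ t q)) w = 0 := by
          intro w
          have h3 : fderiv ℝ (fun x => χ x * F x) (γ t q) = fderiv ℝ F (γ t q) := by
            apply Filter.EventuallyEq.fderiv_eq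
            filter_upwards [e1] with y hy
            rw [hy, one_mul]
          rw [map_sub, sub_apply, hv2 t ht, hYh _ e2, h3, sub_self]
        exact sub_eq_zero.1 (hΩ.nondegenerate _ e2 _ h2)
      have h2 := hv1 t ht
      rw [h1] at h2
      exact (hΦode t q).sub h2)
    (fun t _ => by
      have := hL.dist_le_mul (Φ t q) (γ t q)
      rw [dist_eq_norm, dist_eq_norm] at this
      exact this)
    (by
      show Φ 0 q - γ 0 q = 0
      rw [hΦ0, hq3]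
      simp) T ⟨hT, le_rfl⟩
  exact sub_eq_zero.1 key

end Q170.CF
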