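import Pool.Agent.Q170.CF.Model

/-!
# A compactly supported symplectomorphism translating a neighbourhood of a point of the axis
-/

set_option autoImplicit false
set_option maxSynthPendingDepth 3
set_option linter.unusedSectionVars false

open Set Filter Topology
open scoped ContDiff

namespace Q170.CF

/-- the primitive of the magnetic field in the plane -/
noncomputable def al (c : ℝ) (y : ℝ × ℝ) : ℝ :=
  c * (y.2 * ∫ τ in (0 : ℝ)..1, gc (y.1 ^ 2 + (y.2 * τ) ^ 2))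

theorem contDiff_al (c : ℝ) : ContDiff ℝ ∞ (al c) := by
  have h1 : ContDiff ℝ ∞ (fun p : (ℝ × ℝ) × ℝ => gc (p.1.1 ^ 2 + (p.1.2 * p.2) ^ 2)) := by
    have h2 : ContDiff ℝ ∞ (fun p : (ℝ × ℝ) × ℝ => p.1.1 ^ 2 + (p.1.2 * p.2) ^ 2) := by fun_prop
    exact contDiff_gc.comp h2
  have h3 : ContDiff ℝ ∞ (fun y : ℝ × ℝ => ∫ τ in (0 : ℝ)..1, gc (y.1 ^ 2 + (y.2 * τ) ^ 2)) :=
    Pool.Agent.W585.contDiff_param
      (F := fun (y : ℝ × ℝ) (τ : ℝ) => gc (y.1 ^ 2 + (y.2 * τ) ^ 2)) h1 0 1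
  exact contDiff_const.mul (contDiff_snd.mul h3)

theorem al_eq (c x z : ℝ) : al c (x, z) = c * ∫ s in (0 : ℝ)..z, gc (x ^ 2 + s ^ 2) := by
  unfold al
  have h := intervalIntegral.mul_integral_comp_mul_left (a := (0 : ℝ)) (b := 1)
    (f := fun s => gc (x ^ 2 + s ^ 2)) z
  simp only [mul_zero, mul_one] at h
  simp only
  rw [h]

theorem al_deriv (c x z : ℝ) : HasDerivAt (fun z => al c (x, z)) (c * gc (x ^ 2 + z ^ 2)) z := by
  have h1 : (fun z => al c (x, z)) = fun z => c * ∫ s in (0 : ℝ)..z, gc (x ^ 2 + s ^ 2) := by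
    funext z
    exact al_eq c x z
  rw [h1]
  have h2 : Continuous (fun s : ℝ => gc (x ^ 2 + s ^ 2)) :=
    contDiff_gc.continuous.comp (by fun_prop)
  exact (intervalIntegral.integral_hasDerivAt_right (h2.intervalIntegrable _ _)
    h2.stronglyMeasurable.stronglyMeasurableAtFilter h2.continuousAt).const_mul c

theorem al_zero_of {c : ℝ} {y : ℝ × ℝ} (h : ∀ τ ∈ Icc (0 : ℝ) 1, gc (y.1 ^ 2 + (y.2 * τ) ^ 2) = 0) :
    al c y = 0 := by
  unfold al
  rw [intervalIntegral.integral_congr (g := fun _ => 0), intervalIntegral.integral_zero, mul_zero,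
    mul_zero]
  intro τ hτ
  rw [uIcc_of_le zero_le_one] at hτ
  exact h τ hτ

theorem al_near {c : ℝ} {y : ℝ × ℝ} (h1 : |y.1| < 1 / 4) (h2 : |y.2| < 1 / 4) : al c y = 0 := by
  refine al_zero_of fun τ hτ => gc_of_lt ?_
  have e1 : y.1 ^ 2 ≤ 1 / 16 := by
    rw [← sq_abs]
    nlinarith [abs_nonneg y.1]
  have e2 : y.2 ^ 2 ≤ 1 / 16 := by
    rw [← sq_abs]
    nlinarith [abs_nonneg y.2]
  have e3 : (y.2 * τ) ^ 2 ≤ 1 / 16 := by
    rw [mul_pow]
    have : τ ^ 2 ≤ 1 := by nlinarith [hτ.1, hτ.2]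
    nlinarith [sq_nonneg y.2, sq_nonneg τ]
  linarith

theorem al_far {c : ℝ} {y : ℝ × ℝ} (h1 : 1 < y.1) : al c y = 0 := by
  refine al_zero_of fun τ _ => gc_of_gt ?_
  nlinarith [sq_nonneg (y.2 * τ)]

/-- the points on the axis -/
def pt (ζ : ℝ) : V := (![0, 0, ζ], 0)

/-- the horizontal displacement -/
def e0 : Fin 3 → ℝ := ![1, 0, 0]

def e2 : Fin 3 → ℝ := ![0, 0, 1]

noncomputable def gam (c : ℝ) (t : ℝ) (q : V) : V :=
  (q.1 + t • e0, q.2 - (al c (q.1 0 + t, q.1 1) - al c (q.1 0, q.1 1)) • e0)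

theorem hstep {ζ : ℝ} (h1 : ζ ≠ 1) (h2 : ζ ≠ 2) : ∃ φ : Equiv.Perm V, SympC XX Om φ ∧
    ∀ᶠ q in 𝓝 (pt ζ), φ q = q + ((2 : ℝ) • e0, 0) := by
  set c := cc ζ with hc
  have hal := contDiff_al c
  have hald : ∀ y, HasFDerivAt (al c) (fderiv ℝ (al c) y) y := fun y =>
    ((hal.differentiable (by simp)) y).hasFDerivAt
  have hal2 : ∀ x z, fderiv ℝ (al c) (x, z) (0, 1) = c * gc (x ^ 2 + z ^ 2) := by
    intro x z
    have h3 : HasDerivAt (fun z : ℝ => (x, z)) ((0 : ℝ), (1 : ℝ)) z :=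
      (hasDerivAt_const z x).prodMk (hasDerivAt_id z)
    have h4 : HasDerivAt (fun z => al c (x, z)) (fderiv ℝ (al c) (x, z) (0, 1)) z :=
      HasFDerivAt.comp_hasDerivAt z (hald (x, z)) h3
    exact h4.unique (al_deriv c x z)
  have hF : ContDiff ℝ ∞ (fun q : V => q.2 0 + al c (q.1 0, q.1 1)) := by
    have h3 : ContDiff ℝ ∞ (fun q : V => (q.1 0, q.1 1)) := by fun_prop
    have h4 : ContDiff ℝ ∞ (fun q : V => q.2 0) := by fun_prop
    exact h4.add (hal.comp h3)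
  have hFd : ∀ q w : V, fderiv ℝ (fun q : V => q.2 0 + al c (q.1 0, q.1 1)) q w =
      w.2 0 + (fderiv ℝ (al c) (q.1 0, q.1 1) (1, 0) * w.1 0 +
        c * gc (q.1 0 ^ 2 + q.1 1 ^ 2) * w.1 1) := by
    intro q w
    have h3 : HasFDerivAt (fun q : V => (q.1 0, q.1 1)) ((cx 0).prod (cx 1)) q :=
      ((cx 0).prod (cx 1)).hasFDerivAt
    have h4 : HasFDerivAt (fun q : V => al c (q.1 0, q.1 1))
        ((fderiv ℝ (al c) (q.1 0, q.1 1)).comp ((cx 0).prod (cx 1))) q :=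
      HasFDerivAt.comp (g := al c) (f := fun q : V => (q.1 0, q.1 1)) q (hald (q.1 0, q.1 1)) h3
    have h5 : HasFDerivAt (fun q : V => q.2 0) (cy 0) q := (cy 0).hasFDerivAt
    have h7 : fderiv ℝ (fun q : V => q.2 0 + al c (q.1 0, q.1 1)) q = _ := (h5.add h4).fderiv
    rw [h7]
    have h6 : ((cx 0).prod (cx 1)) w = w.1 0 • ((1 : ℝ), (0 : ℝ)) + w.1 1 • ((0 : ℝ), (1 : ℝ)) := by
      simp [cx_apply]
    rw [add_apply, ContinuousLinearMap.comp_apply, h6, map_add, map_smul, map_smul, hal2, cy_apply,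
      smul_eq_mul, smul_eq_mul]
    ring
  have hγ : Continuous (fun p : ℝ × V => gam c p.1 p.2) := by
    unfold gam
    have h3 : Continuous (fun p : ℝ × V => al c (p.2.1 0 + p.1, p.2.1 1)) :=
      hal.continuous.comp (by fun_prop)
    have h4 : Continuous (fun p : ℝ × V => al c (p.2.1 0, p.2.1 1)) :=
      hal.continuous.comp (by fun_prop)
    fun_prop
  obtain ⟨φ, hφ, hφ1⟩ := push symplectic_Om hF hγ (T := 2) (by norm_num) (q₀ := pt ζ)
    (fun t _ => Or.inl (by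
      have : (gam c t (pt ζ)).1 2 = ζ := by
        simp [gam, pt, e0]
      rw [this]
      exact ⟨h1, h2⟩))
    (by
      have h3 : Continuous (fun q : V => q.1 2) := by fun_prop
      have h4 : (pt ζ).1 2 = ζ := rfl
      have h5 := h3.continuousAt.eventually (h4.symm ▸ cc_ev h1 h2 :
        ∀ᶠ y in 𝓝 ((pt ζ).1 2), cc y = cc ζ)
      filter_upwards [h5] with q hq t _
      refine ⟨(e0, -(fderiv ℝ (al c) (q.1 0 + t, q.1 1) (1, 0)) • e0), ?_, ?_⟩
      · have k1 : HasDerivAt (fun s : ℝ => (q.1 0 + s, q.1 1)) ((1 : ℝ), (0 : ℝ)) t := by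
          have := ((hasDerivAt_id t).const_add (q.1 0)).prodMk (hasDerivAt_const t (q.1 1))
          exact this
        have k2 : HasDerivAt (fun s => al c (q.1 0 + s, q.1 1))
            (fderiv ℝ (al c) (q.1 0 + t, q.1 1) (1, 0)) t :=
          HasFDerivAt.comp_hasDerivAt (l := al c) (f := fun s : ℝ => (q.1 0 + s, q.1 1)) t
            (hald (q.1 0 + t, q.1 1)) k1
        have k3 : HasDerivAt (fun s : ℝ => q.1 + s • e0) e0 t := by
          have := ((hasDerivAt_id t).smul_const e0).const_add q.1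
          simpa using this
        have k4 : HasDerivAt (fun s : ℝ =>
            q.2 - (al c (q.1 0 + s, q.1 1) - al c (q.1 0, q.1 1)) • e0)
            (-(fderiv ℝ (al c) (q.1 0 + t, q.1 1) (1, 0)) • e0) t := by
          have := ((k2.sub_const (al c (q.1 0, q.1 1))).smul_const e0).const_sub q.2
          rw [neg_smul]
          exact this
        exact k3.prodMk k4
      · intro w
        rw [hFd, Om_apply]
        have g0 : (gam c t q).1 0 = q.1 0 + t := by
          show q.1 0 + t * 1 = _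
          ring
        have g1 : (gam c t q).1 1 = q.1 1 := by
          show q.1 1 + t * 0 = _
          ring
        have g2 : (gam c t q).1 2 = q.1 2 := by
          show q.1 2 + t * 0 = _
          ring
        unfold kap Rq
        rw [g0, g1, g2, hq]
        simp [e0]
        ring)
    (by
      refine Eventually.of_forall fun q => ?_
      simp [gam])
  refine ⟨φ, hφ, ?_⟩
  have h3 : Continuous (fun q : V => |q.1 0|) := by fun_prop
  have h4 : Continuous (fun q : V => |q.1 1|) := by fun_prop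
  have h5 : ∀ᶠ q in 𝓝 (pt ζ), |q.1 0| < 1 / 4 :=
    h3.continuousAt.eventually (Iio_mem_nhds (by simp [pt]))
  have h6 : ∀ᶠ q in 𝓝 (pt ζ), |q.1 1| < 1 / 4 :=
    h4.continuousAt.eventually (Iio_mem_nhds (by simp [pt]))
  filter_upwards [hφ1, h5, h6] with q hq k5 k6
  rw [hq]
  unfold gam
  rw [al_near (y := (q.1 0, q.1 1)) k5 k6, al_far (y := (q.1 0 + 2, q.1 1)) (by
    simp only
    linarith [(abs_lt.1 k5).1])]
  refine Prod.ext rfl ?_
  simp

theorem vstep {ζ : ℝ} (h1 : 0 ≤ ζ) : ∃ φ : Equiv.Perm V, SympC XX Om φ ∧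
    ∀ᶠ q in 𝓝 (pt ζ + ((2 : ℝ) • e0, 0)), φ q = q - (ζ • e2, 0) := by
  have hF : ContDiff ℝ ∞ (fun q : V => -q.2 2) := by fun_prop
  obtain ⟨φ, hφ, hφ1⟩ := push symplectic_Om hF (γ := fun t q => (q.1 - t • e2, q.2))
    (by fun_prop) (T := ζ) h1 (q₀ := pt ζ + ((2 : ℝ) • e0, 0))
    (fun t _ => Or.inr (by
      simp [Rq, pt, e0, e2]))
    (by
      refine Eventually.of_forall fun q t _ => ⟨(-e2, 0), ?_, fun w => ?_⟩
      · have k3 : HasDerivAt (fun s : ℝ => q.1 - s • e2) (-e2) t := by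
          have := ((hasDerivAt_id t).smul_const e2).const_sub q.1
          simpa using this
        exact k3.prodMk (hasDerivAt_const t q.2)
      · have k1 : HasFDerivAt (fun q : V => -q.2 2) (-cy 2) (q.1 - t • e2, q.2) :=
          (cy 2).hasFDerivAt.neg
        rw [k1.fderiv, Om_apply]
        simp [e2, cy_apply])
    (by
      refine Eventually.of_forall fun q => ?_
      simp)
  refine ⟨φ, hφ, ?_⟩
  filter_upwards [hφ1] with q hq
  rw [hq]
  refine Prod.ext rfl ?_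
  simp

theorem pt_zero : pt 0 = 0 := by
  unfold pt
  refine Prod.ext (funext fun i => ?_) rfl
  fin_cases i <;> rfl

theorem pt_eq (ζ : ℝ) : pt ζ = (ζ • e2, 0) := by
  unfold pt e2
  refine Prod.ext (funext fun i => ?_) rfl
  fin_cases i <;> simp

/-- A compactly supported symplectomorphism moving a neighbourhood of `pt ζ` to a neighbourhood of
the origin by a translation. -/
theorem exists_rho {ζ : ℝ} (h0 : 0 ≤ ζ) (h1 : ζ ≠ 1) (h2 : ζ ≠ 2) :
    ∃ ρ : Equiv.Perm V, SympC XX Om ρ ∧ ∀ᶠ q in 𝓝 (0 : V), ρ.symm q = q + pt ζ := by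
  obtain ⟨a, ha, ha1⟩ := hstep h1 h2
  obtain ⟨b, hb, hb1⟩ := vstep h0
  obtain ⟨d, hd, hd1⟩ := hstep (ζ := 0) (by norm_num) (by norm_num)
  rw [pt_zero] at hd1
  refine ⟨d.symm * (b * a), hd.inv.mul (hb.mul ha), ?_⟩
  have t1 : Tendsto (fun q : V => q + pt ζ) (𝓝 0) (𝓝 (pt ζ)) := by
    have : Continuous (fun q : V => q + pt ζ) := by fun_prop
    simpa using this.tendsto 0
  have t2 : Tendsto (fun q : V => q + pt ζ + ((2 : ℝ) • e0, 0)) (𝓝 0)
      (𝓝 (pt ζ + ((2 : ℝ) • e0, 0))) := by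
    have : Continuous (fun q : V => q + pt ζ + ((2 : ℝ) • e0, 0)) := by fun_prop
    simpa using this.tendsto 0
  filter_upwards [t1.eventually ha1, t2.eventually hb1, hd1] with q k1 k2 k3
  rw [Equiv.symm_apply_eq]
  show q = d.symm (b (a (q + pt ζ)))
  rw [k1, k2]
  symm
  rw [Equiv.symm_apply_eq, k3, ← pt_eq]
  abel

end Q170.CF
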